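import Pool.Agent.Lib.MP_05ceff_pr.Kern

set_option autoImplicit false

namespace Pool.Agent.ERW

open Finset

/-- The fair stack. -/
noncomputable def fair : ℕ → ℝ := fun _ => 1 / 2

lemma fair_pr : IsPr fair := fun _ => by unfold fair; norm_num

lemma tl_fair : tl fair = fair := rfl

/-- Expectation of `h` of the negative binomial law with parameter `d`. -/
noncomputable def Q (h : ℕ → ℝ) (d : ℕ) : ℝ := A fair h d

lemma Q_zero (h : ℕ → ℝ) : Q h 0 = h 0 := A_zero _ _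

lemma Q_succ (h : ℕ → ℝ) (hh : Unit01 h) (d : ℕ) :
    Q h (d + 1) = 1 / 2 * Q h d + 1 / 2 * Q (tl h) (d + 1) := by
  unfold Q
  rw [A_succ fair fair_pr h hh d, tl_fair]
  unfold fair
  norm_num

lemma Q_unit (h : ℕ → ℝ) (hh : Unit01 h) : Unit01 (Q h) := A_unit _ fair_pr _ hh

lemma Q_mono (h g : ℕ → ℝ) (hh : Unit01 h) (hg : Unit01 g) (hle : ∀ j, h j ≤ g j) (d : ℕ) :
    Q h d ≤ Q g d := A_mono _ fair_pr _ _ hh hg hle d

/-- Decreasing functions. -/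
def Dec (h : ℕ → ℝ) : Prop := ∀ j, h (j + 1) ≤ h j

lemma Dec.tl {h : ℕ → ℝ} (hd : Dec h) : Dec (tl h) := fun j => hd (j + 1)

lemma Q_dec (h : ℕ → ℝ) (hh : Unit01 h) (hd : Dec h) : Dec (Q h) := by
  intro d
  have h1 := Q_succ h hh d
  have h2 := Q_mono (tl h) h hh.tl hh hd (d + 1)
  linarith

lemma Dec.le_zero {h : ℕ → ℝ} (hd : Dec h) (j : ℕ) : h j ≤ h 0 := by
  induction j with
  | zero => exact le_refl _
  | succ j ih => exact (hd j).trans ih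

/-- A bounded sequence with `f n = γ f (n+1)`, `0 ≤ γ < 1`, vanishes. -/
lemma eq_zero_of_geom (f : ℕ → ℝ) (C γ : ℝ) (hf : ∀ n, |f n| ≤ C) (h0 : 0 ≤ γ) (h1 : γ < 1)
    (h : ∀ n, f n = γ * f (n + 1)) : f 0 = 0 := by
  have hpow : ∀ n, f 0 = γ ^ n * f n := by
    intro n
    induction n with
    | zero => simp
    | succ n ih => rw [ih, h n]; ring
  have hb : ∀ n, |f 0| ≤ γ ^ n * C := by
    intro n
    rw [hpow n, abs_mul, abs_of_nonneg (pow_nonneg h0 n)]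
    exact mul_le_mul_of_nonneg_left (hf n) (pow_nonneg h0 n)
  have hlim : Filter.Tendsto (fun n : ℕ => γ ^ n * C) Filter.atTop (nhds (0 * C)) :=
    (tendsto_pow_atTop_nhds_zero_of_lt_one h0 h1).mul_const C
  rw [zero_mul] at hlim
  have := ge_of_tendsto' hlim hb
  exact abs_eq_zero.mp (le_antisymm this (abs_nonneg _))

/-- Shift of a function. -/
def sh (n : ℕ) (h : ℕ → ℝ) : ℕ → ℝ := fun j => h (j + n)

lemma sh_zero (h : ℕ → ℝ) : sh 0 h = h := rfl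

lemma tl_sh (n : ℕ) (h : ℕ → ℝ) : tl (sh n h) = sh (n + 1) h := by
  funext j; unfold tl sh; congr 1; ring

lemma Unit01.sh {h : ℕ → ℝ} (hh : Unit01 h) (n : ℕ) : Unit01 (sh n h) := fun j => hh (j + n)

/-- Geometric transform. -/
noncomputable def T (γ : ℝ) (h : ℕ → ℝ) : ℝ := ∑' i, γ ^ i * h i

lemma T_summable (γ : ℝ) (h : ℕ → ℝ) (hh : Unit01 h) (h0 : 0 ≤ γ) (h1 : γ < 1) :
    Summable (fun i => γ ^ i * h i) := by
  refine Summable.of_nonneg_of_le (fun i => mul_nonneg (pow_nonneg h0 i) (hh i).1)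
    (fun i => ?_) (summable_geometric_of_lt_one h0 h1)
  have := pow_nonneg h0 i
  nlinarith [(hh i).2]

lemma T_rec (γ : ℝ) (h : ℕ → ℝ) (hh : Unit01 h) (h0 : 0 ≤ γ) (h1 : γ < 1) :
    T γ h = h 0 + γ * T γ (tl h) := by
  unfold T
  rw [(T_summable γ h hh h0 h1).tsum_eq_zero_add, ← tsum_mul_left]
  congr 1
  · simp
  · congr 1; ext i; unfold tl; ring

lemma T_nonneg (γ : ℝ) (h : ℕ → ℝ) (hh : Unit01 h) (h0 : 0 ≤ γ) : 0 ≤ T γ h :=
  tsum_nonneg fun i => mul_nonneg (pow_nonneg h0 i) (hh i).1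

lemma T_le (γ : ℝ) (h : ℕ → ℝ) (hh : Unit01 h) (h0 : 0 ≤ γ) (h1 : γ < 1) :
    T γ h ≤ (1 - γ)⁻¹ := by
  rw [← tsum_geometric_of_lt_one h0 h1]
  refine (T_summable γ h hh h0 h1).tsum_le_tsum (fun i => ?_) (summable_geometric_of_lt_one h0 h1)
  have := pow_nonneg h0 i
  nlinarith [(hh i).2]

/-- `T ρ (Q h)` satisfies a recursion. -/
lemma TQ_rec (ρ : ℝ) (h : ℕ → ℝ) (hh : Unit01 h) (h0 : 0 ≤ ρ) (h1 : ρ < 1) :
    (2 - ρ) * T ρ (Q h) = 2 * h 0 - h 1 + T ρ (Q (tl h)) := by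
  have e1 := T_rec ρ (Q h) (Q_unit h hh) h0 h1
  have e2 := T_rec ρ (Q (tl h)) (Q_unit _ hh.tl) h0 h1
  have e3 : T ρ (tl (Q h)) = 1 / 2 * T ρ (Q h) + 1 / 2 * T ρ (tl (Q (tl h))) := by
    unfold T
    rw [← tsum_mul_left, ← tsum_mul_left, ← Summable.tsum_add]
    · congr 1; ext i
      unfold tl
      have := Q_succ h hh i
      rw [this]; unfold tl; ring
    · exact (T_summable ρ _ (Q_unit h hh) h0 h1).mul_left _
    · exact (T_summable ρ _ (Q_unit _ hh.tl).tl h0 h1).mul_left _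
  rw [Q_zero] at e1 e2
  have e4 : tl h 0 = h 1 := rfl
  rw [e4] at e2
  rw [e3] at e1
  have e5 : ρ * T ρ (tl (Q (tl h))) = T ρ (Q (tl h)) - h 1 := by linarith
  have e6 : T ρ (Q h) = h 0 + (ρ / 2) * T ρ (Q h) + 1 / 2 * (ρ * T ρ (tl (Q (tl h)))) := by
    linarith
  rw [e5] at e6
  linarith

/-- Closed form of `T ρ (Q h)`. -/
lemma TQ_eq (ρ : ℝ) (h : ℕ → ℝ) (hh : Unit01 h) (h0 : 0 ≤ ρ) (h1 : ρ < 1) :
    T ρ (Q h) = h 0 + ρ / (2 - ρ) * T (1 / (2 - ρ)) h := by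
  set γ : ℝ := 1 / (2 - ρ) with hγ
  have hpos : 0 < 2 - ρ := by linarith
  have hγ0 : 0 ≤ γ := by positivity
  have hγ1 : γ < 1 := by rw [hγ, div_lt_one hpos]; linarith
  have hγm : γ * (2 - ρ) = 1 := by rw [hγ]; field_simp
  have hd : ρ / (2 - ρ) = ρ * γ := by rw [hγ]; ring
  rw [hd]
  set f : ℕ → ℝ := fun n => T ρ (Q (sh n h)) - sh n h 0 - ρ * γ * T γ (sh n h) with hf
  have key : f 0 = 0 := by
    refine eq_zero_of_geom f ((1 - ρ)⁻¹ + 1 + (1 - γ)⁻¹) γ ?_ hγ0 hγ1 ?_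
    · intro n
      have a1 := T_nonneg ρ (Q (sh n h)) (Q_unit _ (hh.sh n)) h0
      have a2 := T_le ρ (Q (sh n h)) (Q_unit _ (hh.sh n)) h0 h1
      have b1 := T_nonneg γ (sh n h) (hh.sh n) hγ0
      have b2 := T_le γ (sh n h) (hh.sh n) hγ0 hγ1
      have c := (hh.sh n) 0
      have d0 : 0 ≤ ρ * γ := by positivity
      have d1 : ρ * γ ≤ 1 := by nlinarith
      have g1 : 0 ≤ ρ * γ * T γ (sh n h) := mul_nonneg d0 b1
      have g2 : ρ * γ * T γ (sh n h) ≤ (1 - γ)⁻¹ := by nlinarith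
      simp only [hf]
      rw [abs_le]
      constructor
      · linarith [c.2]
      · have : 0 ≤ (1 - γ)⁻¹ := b1.trans b2
        linarith [c.1]
    · intro n
      simp only [hf]
      have e1 := TQ_rec ρ (sh n h) (hh.sh n) h0 h1
      have e2 := T_rec γ (sh n h) (hh.sh n) hγ0 hγ1
      rw [tl_sh] at e1 e2
      have e3 : sh n h 1 = sh (n + 1) h 0 := by unfold sh; congr 1; ring
      rw [e3] at e1
      have e1' : T ρ (Q (sh n h)) =
          γ * (2 * sh n h 0 - sh (n + 1) h 0 + T ρ (Q (sh (n + 1) h))) := by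
        rw [← e1]
        calc T ρ (Q (sh n h)) = (γ * (2 - ρ)) * T ρ (Q (sh n h)) := by rw [hγm]; ring
          _ = _ := by ring
      rw [e1', e2]
      have : 2 * γ - 1 = ρ * γ := by linarith
      linear_combination (sh n h 0) * this
  simp only [hf, sh_zero] at key
  linarith

/-- `Q h 1` is the geometric expectation. -/
lemma Q_one_eq (h : ℕ → ℝ) (hh : Unit01 h) : Q h 1 = 1 / 2 * T (1 / 2) h := by
  set f : ℕ → ℝ := fun n => Q (sh n h) 1 - 1 / 2 * T (1 / 2) (sh n h) with hf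
  have key : f 0 = 0 := by
    refine eq_zero_of_geom f 2 (1 / 2) ?_ (by norm_num) (by norm_num) ?_
    · intro n
      have a := (Q_unit _ (hh.sh n)) 1
      have b1 := T_nonneg (1 / 2) (sh n h) (hh.sh n) (by norm_num)
      have b2 := T_le (1 / 2) (sh n h) (hh.sh n) (by norm_num) (by norm_num)
      have b3 : (1 - (1 / 2 : ℝ))⁻¹ = 2 := by norm_num
      rw [b3] at b2
      simp only [hf]
      rw [abs_le]
      constructor <;> linarith [a.1, a.2]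
    · intro n
      simp only [hf]
      have e1 := Q_succ (sh n h) (hh.sh n) 0
      have e2 := T_rec (1 / 2) (sh n h) (hh.sh n) (by norm_num) (by norm_num)
      rw [tl_sh] at e1 e2
      rw [Q_zero] at e1
      simp only [zero_add] at e1
      rw [e1, e2]
      ring
  simp only [hf, sh_zero] at key
  linarith

/-- Expectation of `h` under the geometric law on `{1,2,...}` with parameter `1/(1+a)`. -/
noncomputable def mu (a : ℕ) (h : ℕ → ℝ) : ℝ := 1 / ((a : ℝ) + 1) * T (a / (a + 1)) (tl h)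

lemma mu_one (h : ℕ → ℝ) : mu 1 h = 1 / 2 * T (1 / 2) (tl h) := by
  unfold mu; norm_num

/-- Kernel of the stack `(1,1,1/2,...)` on the number of left crossings. -/
noncomputable def KP (h : ℕ → ℝ) : ℕ → ℝ
  | 0 => h 0
  | j + 1 => Q h j

/-- Kernel of the stack `(1,0,1/2,...)`. -/
noncomputable def KN (h : ℕ → ℝ) : ℕ → ℝ
  | 0 => h 0
  | j + 1 => Q (tl h) (j + 1)

/-- Kernel of the stack `(1/2,1/2,...)`. -/
noncomputable def KW (h : ℕ → ℝ) : ℕ → ℝ := fun d => Q h (d + 1)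

lemma KP_unit (h : ℕ → ℝ) (hh : Unit01 h) : Unit01 (KP h) := by
  intro j; cases j with
  | zero => exact hh 0
  | succ j => exact Q_unit h hh j

lemma KN_unit (h : ℕ → ℝ) (hh : Unit01 h) : Unit01 (KN h) := by
  intro j; cases j with
  | zero => exact hh 0
  | succ j => exact Q_unit _ hh.tl _

lemma KW_unit (h : ℕ → ℝ) (hh : Unit01 h) : Unit01 (KW h) := fun _ => Q_unit h hh _

lemma KP_dec (h : ℕ → ℝ) (hh : Unit01 h) (hd : Dec h) : Dec (KP h) := by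
  intro j; cases j with
  | zero => show Q h 0 ≤ h 0; rw [Q_zero]
  | succ j => exact Q_dec h hh hd j

lemma KN_dec (h : ℕ → ℝ) (hh : Unit01 h) (hd : Dec h) : Dec (KN h) := by
  intro j; cases j with
  | zero =>
    show Q (tl h) 1 ≤ h 0
    calc Q (tl h) 1 ≤ Q h 1 := Q_mono _ _ hh.tl hh hd 1
      _ ≤ Q h 0 := Q_dec h hh hd 0
      _ = h 0 := Q_zero h
  | succ j => exact Q_dec _ hh.tl hd.tl (j + 1)

lemma KW_dec (h : ℕ → ℝ) (hh : Unit01 h) (hd : Dec h) : Dec (KW h) :=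
  fun j => Q_dec h hh hd (j + 1)

private lemma rho_facts (a : ℕ) :
    (0 : ℝ) ≤ (a : ℝ) / (a + 1) ∧ (a : ℝ) / (a + 1) < 1 ∧
      1 / (2 - (a : ℝ) / (a + 1)) = ((a + 1 : ℕ) : ℝ) / ((a + 1 : ℕ) + 1) := by
  have h1 : (0 : ℝ) < (a : ℝ) + 1 := by positivity
  refine ⟨by positivity, ?_, ?_⟩
  · rw [div_lt_one h1]; linarith
  · push_cast
    have : 2 - (a : ℝ) / (a + 1) = (a + 2) / (a + 1) := by field_simp; ring
    rw [this, one_div_div]
    congr 1; ring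

lemma mu_KP (a : ℕ) (h : ℕ → ℝ) (hh : Unit01 h) :
    mu a (KP h) = 2 / ((a : ℝ) + 2) * h 0 + (a : ℝ) / (a + 2) * mu (a + 1) h := by
  obtain ⟨h0, h1, h2⟩ := rho_facts a
  have e0 : tl (KP h) = Q h := rfl
  unfold mu
  rw [e0, TQ_eq _ h hh h0 h1]
  have hγ0 : (0 : ℝ) ≤ ((a + 1 : ℕ) : ℝ) / ((a + 1 : ℕ) + 1) := by positivity
  have hγ1 : ((a + 1 : ℕ) : ℝ) / ((a + 1 : ℕ) + 1) < 1 := by
    rw [div_lt_one (by positivity)]; linarith
  have e1 := T_rec _ h hh hγ0 hγ1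
  rw [h2, e1]
  set X := T (((a + 1 : ℕ) : ℝ) / ((a + 1 : ℕ) + 1)) (tl h)
  have h3 : (2 - (a : ℝ) / (a + 1)) = (a + 2) / (a + 1) := by field_simp; ring
  rw [h3]
  push_cast
  have p1 : (a : ℝ) + 1 ≠ 0 := by positivity
  have p2 : (a : ℝ) + 2 ≠ 0 := by positivity
  have p3 : (a : ℝ) + 1 + 1 ≠ 0 := by positivity
  field_simp
  ring

lemma mu_KN (a : ℕ) (ha : 1 ≤ a) (h : ℕ → ℝ) (hh : Unit01 h) :
    mu a (KN h) = mu (a + 1) h := by
  obtain ⟨h0, h1, h2⟩ := rho_facts a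
  have e0 : tl (KN h) = tl (Q (tl h)) := rfl
  have e1 := T_rec _ (Q (tl h)) (Q_unit _ hh.tl) h0 h1
  rw [TQ_eq _ (tl h) hh.tl h0 h1, Q_zero, h2] at e1
  unfold mu
  rw [e0]
  set X := T (((a + 1 : ℕ) : ℝ) / ((a + 1 : ℕ) + 1)) (tl h)
  set Y := T ((a : ℝ) / (a + 1)) (tl (Q (tl h)))
  have h3 : (2 - (a : ℝ) / (a + 1)) = (a + 2) / (a + 1) := by field_simp; ring
  rw [h3] at e1
  have pa : (a : ℝ) ≠ 0 := by positivity
  have p1 : (a : ℝ) + 1 ≠ 0 := by positivity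
  have p2 : (a : ℝ) + 2 ≠ 0 := by positivity
  have p3 : (a : ℝ) + 1 + 1 ≠ 0 := by positivity
  push_cast
  have e2 : (a : ℝ) / ((a : ℝ) + 1) / (((a : ℝ) + 2) / ((a : ℝ) + 1)) * X =
      (a : ℝ) / ((a : ℝ) + 1) * Y := by linarith
  field_simp at e2 ⊢
  linear_combination -e2

lemma mu_KW (a : ℕ) (ha : 1 ≤ a) (h : ℕ → ℝ) (hh : Unit01 h) :
    mu a (KW h) = (1 - (1 + 1 / ((a : ℝ) * (a + 2))) + 1 / (2 * a)) * h 0 +
      (1 + 1 / ((a : ℝ) * (a + 2))) * mu (a + 1) h - 1 / (2 * a) * mu 1 h := by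
  obtain ⟨h0, h1, h2⟩ := rho_facts a
  have e0 : tl (KW h) = tl (tl (Q h)) := rfl
  have e1 := T_rec _ (Q h) (Q_unit _ hh) h0 h1
  have e2 := T_rec _ (tl (Q h)) (Q_unit _ hh).tl h0 h1
  have e3 : tl (Q h) 0 = 1 / 2 * T (1 / 2) h := Q_one_eq h hh
  have e4 := T_rec (1 / 2) h hh (by norm_num) (by norm_num)
  have hγ0 : (0 : ℝ) ≤ ((a + 1 : ℕ) : ℝ) / ((a + 1 : ℕ) + 1) := by positivity
  have hγ1 : ((a + 1 : ℕ) : ℝ) / ((a + 1 : ℕ) + 1) < 1 := by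
    rw [div_lt_one (by positivity)]; linarith
  have e5 := T_rec _ h hh hγ0 hγ1
  rw [TQ_eq _ h hh h0 h1, Q_zero, h2] at e1
  rw [mu_one]
  unfold mu
  rw [e0]
  rw [e3] at e2
  set X := T (((a + 1 : ℕ) : ℝ) / ((a + 1 : ℕ) + 1)) (tl h)
  set X' := T (((a + 1 : ℕ) : ℝ) / ((a + 1 : ℕ) + 1)) h
  set Y := T ((a : ℝ) / (a + 1)) (tl (tl (Q h)))
  set Y' := T ((a : ℝ) / (a + 1)) (tl (Q h))
  set Z := T (1 / 2) h
  set Z' := T (1 / 2) (tl h)
  have h3 : (2 - (a : ℝ) / (a + 1)) = (a + 2) / (a + 1) := by field_simp; ring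
  rw [h3] at e1
  have pa : (a : ℝ) ≠ 0 := by positivity
  have p1 : (a : ℝ) + 1 ≠ 0 := by positivity
  have p2 : (a : ℝ) + 2 ≠ 0 := by positivity
  have p3 : (a : ℝ) + 1 + 1 ≠ 0 := by positivity
  rw [e5] at e1
  rw [e4] at e2
  rw [e2] at e1
  push_cast at e1 ⊢
  have hY : Y = ((a : ℝ) + 1) ^ 2 / (a : ℝ) ^ 2 *
      (h 0 + (a : ℝ) / ((a : ℝ) + 1) / (((a : ℝ) + 2) / ((a : ℝ) + 1)) *
        (h 0 + ((a : ℝ) + 1) / ((a : ℝ) + 1 + 1) * X) - h 0 -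
        (a : ℝ) / ((a : ℝ) + 1) * (1 / 2 * (h 0 + 1 / 2 * Z'))) := by
    rw [e1]; field_simp; ring
  rw [hY]
  field_simp
  ring

end Pool.Agent.ERW
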