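import Pool.Agent.Lib.MP_05ceff_pr.Odo

set_option autoImplicit false

namespace Pool.Agent.ERW

open Finset MeasureTheory Filter

/-- The next level. -/
noncomputable def nxt (L : Lev) (k : ℕ) : Lev :=
  Classical.choose (L.step ((1 / 16) * (1 / 2 : ℝ) ^ k) (by positivity))

lemma nxt_spec (L : Lev) (k : ℕ) : L.n < (nxt L k).n ∧
    (nxt L k).F = L.F + (1 / 16) * (1 / 2 : ℝ) ^ k ∧
    (nxt L k).eps ≤ 7 / 8 * L.eps ∧ (nxt L k).dw = (1 - L.eps / 4) * L.dw ∧
    ∃ x : ℕ, x ≤ 2 ^ (nxt L k).n ∧ (x : ℝ) / 2 ^ (nxt L k).n = L.eps / 4 ∧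
      ∀ i, i < 2 ^ (nxt L k).n - x → (nxt L k).t i = L.t i :=
  Classical.choose_spec (L.step ((1 / 16) * (1 / 2 : ℝ) ^ k) (by positivity))

/-- The sequence of levels. -/
noncomputable def LL : ℕ → Lev
  | 0 => L0
  | k + 1 => nxt (LL k) k

lemma LL_F (k : ℕ) : (LL k).F ≤ 7 / 8 := by
  have h : (LL k).F = 3 / 4 + 1 / 8 * (1 - (1 / 2 : ℝ) ^ k) := by
    induction k with
    | zero => show (3 / 4 : ℝ) = _; norm_num
    | succ k ih =>
      have := (nxt_spec (LL k) k).2.1
      show (nxt (LL k) k).F = _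
      rw [this, ih, pow_succ]; ring
  rw [h]
  have : (0 : ℝ) < (1 / 2 : ℝ) ^ k := by positivity
  linarith

lemma LL_eps (k : ℕ) : (LL k).eps ≤ (7 / 8 : ℝ) ^ k * (3 / 16) := by
  induction k with
  | zero =>
    show ((12 : ℕ) : ℝ) / 2 ^ 6 ≤ _
    norm_num
  | succ k ih =>
    have := (nxt_spec (LL k) k).2.2.1
    show (nxt (LL k) k).eps ≤ _
    rw [pow_succ]
    linarith

lemma LL_dw (k : ℕ) : 5 / 512 ≤ (LL k).dw := by
  have h : (1 / 64 : ℝ) * (1 - 3 / 8 * (1 - (7 / 8 : ℝ) ^ k)) ≤ (LL k).dw ∧ (LL k).dw ≤ 1 / 64 := by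
    induction k with
    | zero =>
      have : (LL 0).dw = 1 / 64 := by
        show (∑ i ∈ range (2 ^ 6), wi (t0 i)) / 2 ^ 6 = 1 / 64
        rw [t0_sum]; simp [wi]; norm_num
      rw [this]; norm_num
    | succ k ih =>
      have h1 := (nxt_spec (LL k) k).2.2.2.1
      have h2 := LL_eps k
      have h3 := (LL k).eps_pos
      have e : (LL (k + 1)).dw = (1 - (LL k).eps / 4) * (LL k).dw := h1
      have hp : (0 : ℝ) < (7 / 8 : ℝ) ^ k := by positivity
      have hp1 : (7 / 8 : ℝ) ^ k ≤ 1 := pow_le_one₀ (by norm_num) (by norm_num)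
      have h0 : 0 ≤ (LL k).dw := by linarith [ih.1]
      rw [e, pow_succ]
      constructor
      · have h4 : (LL k).eps / 4 * (LL k).dw ≤ (7 / 8 : ℝ) ^ k * (3 / 64) * (1 / 64) := by
          have : (LL k).eps / 4 ≤ (7 / 8 : ℝ) ^ k * (3 / 64) := by linarith
          exact mul_le_mul this ih.2 h0 (by positivity)
        linarith [ih.1]
      · have h5 : 0 ≤ (LL k).eps / 4 * (LL k).dw := by positivity
        linarith [ih.2]
  have hp : (0 : ℝ) < (7 / 8 : ℝ) ^ k := by positivity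
  linarith [h.1]

/-- Type of a point at level `k`. -/
noncomputable def tk (k : ℕ) (θ : E2) : Ty := (LL k).t (rs (LL k).n θ)

instance instTyMS : MeasurableSpace Ty := ⊤

instance : DiscreteMeasurableSpace Ty := ⟨fun _ => trivial⟩

instance : Fintype Ty := ⟨{Ty.P, Ty.N, Ty.W}, fun t => by cases t <;> simp⟩

lemma measurable_tk (k : ℕ) : Measurable (tk k) :=
  (measurable_of_countable (LL k).t).comp (measurable_rs _)

lemma Lev.per_mod (L : Lev) (x : ℕ) : L.t (x % 2 ^ L.n) = L.t x := by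
  conv_rhs => rw [← Nat.mod_add_div x (2 ^ L.n), mul_comm]
  rw [per_mul L.t (2 ^ L.n) L.per]

lemma tk_add (k : ℕ) (θ : E2) (i : ℕ) : tk k (θ + i) = (LL k).t (rs (LL k).n θ + i) := by
  unfold tk
  rw [rs_add, Lev.per_mod]

lemma real_rs (k a : ℕ) (ha : a ≤ 2 ^ k) :
    nu.real {θ | 2 ^ k - a ≤ rs k θ} = (a : ℝ) / 2 ^ k := by
  have hm : MeasurableSet {θ | 2 ^ k - a ≤ rs k θ} := by
    have : {θ | 2 ^ k - a ≤ rs k θ} = rs k ⁻¹' (Set.Ici (2 ^ k - a)) := rfl
    rw [this]; exact measurable_rs k measurableSet_Ici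
  have h1 := integral_rs k (fun x => if 2 ^ k - a ≤ x then (1 : ℝ) else 0)
  have h2 : ∫ θ, (if 2 ^ k - a ≤ rs k θ then (1 : ℝ) else 0) ∂nu =
      nu.real {θ | 2 ^ k - a ≤ rs k θ} := by
    rw [← integral_indicator_one hm]
    refine integral_congr_ae (Eventually.of_forall fun θ => ?_)
    simp only [Set.indicator, Set.mem_ofPred_eq, Pi.one_apply]
  rw [← h2, h1]
  congr 1
  have h3 : (2 ^ k : ℕ) = (2 ^ k - a) + a := by omega
  conv_lhs => rw [h3]
  rw [sum_range_add]
  have h4 : ∑ x ∈ range (2 ^ k - a), (if 2 ^ k - a + a - a ≤ x then (1 : ℝ) else 0) = 0 := by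
    refine sum_eq_zero fun x hx => ?_
    rw [if_neg]; have := mem_range.mp hx; omega
  have h5 : ∑ x ∈ range a, (if 2 ^ k - a + a - a ≤ 2 ^ k - a + x then (1 : ℝ) else 0) = a := by
    rw [sum_congr rfl (g := fun _ => (1 : ℝ))]
    · simp
    · intro x _; rw [if_pos (by omega)]
  rw [h4, h5, zero_add]

lemma bad_measure (k : ℕ) :
    nu {θ | tk (k + 1) θ ≠ tk k θ} ≤ ENNReal.ofReal ((7 / 8 : ℝ) ^ k * (3 / 64)) := by
  obtain ⟨h1, -, -, -, x, hx, hxe, hxt⟩ := nxt_spec (LL k) k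
  have hsub : {θ | tk (k + 1) θ ≠ tk k θ} ⊆
      {θ | 2 ^ (LL (k + 1)).n - x ≤ rs (LL (k + 1)).n θ} := by
    intro θ hθ
    simp only [Set.mem_ofPred_eq] at hθ ⊢
    by_contra hlt
    push Not at hlt
    apply hθ
    unfold tk
    have e1 : (LL (k + 1)).t (rs (LL (k + 1)).n θ) = (LL k).t (rs (LL (k + 1)).n θ) :=
      hxt _ hlt
    have e2 : rs (LL (k + 1)).n θ % 2 ^ (LL k).n = rs (LL k).n θ :=
      rs_mod _ _ (le_of_lt h1) θ
    rw [e1, ← Lev.per_mod (LL k) (rs (LL (k + 1)).n θ), e2]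
  refine (measure_mono hsub).trans ?_
  have h2 := real_rs (LL (k + 1)).n x hx
  rw [← ENNReal.ofReal_toReal (measure_ne_top nu {θ | 2 ^ (LL (k + 1)).n - x ≤ rs (LL (k + 1)).n θ})]
  refine ENNReal.ofReal_le_ofReal ?_
  have h3 : (nu {θ | 2 ^ (LL (k + 1)).n - x ≤ rs (LL (k + 1)).n θ}).toReal =
      (x : ℝ) / 2 ^ (LL (k + 1)).n := h2
  rw [h3]
  have h4 : (x : ℝ) / 2 ^ (LL (k + 1)).n = (LL k).eps / 4 := hxe
  rw [h4]
  linarith [LL_eps k]

open Classical in
/-- The limiting type. -/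
noncomputable def typ (θ : E2) : Ty :=
  if ∀ᶠ k in atTop, tk k θ = Ty.P then Ty.P
  else if ∀ᶠ k in atTop, tk k θ = Ty.W then Ty.W else Ty.N

lemma measurableSet_ev (a : Ty) : MeasurableSet {θ : E2 | ∀ᶠ k in atTop, tk k θ = a} := by
  have : {θ : E2 | ∀ᶠ k in atTop, tk k θ = a} = ⋃ K : ℕ, ⋂ k : ℕ, ⋂ (_ : K ≤ k), {θ | tk k θ = a} := by
    ext θ
    simp only [Set.mem_ofPred_eq, eventually_atTop, Set.mem_iUnion, Set.mem_iInter, ge_iff_le]
  rw [this]
  refine MeasurableSet.iUnion fun K => MeasurableSet.iInter fun k => MeasurableSet.iInter fun _ => ?_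
  exact measurable_tk k (MeasurableSet.of_discrete (s := {a}))

lemma measurable_typ : Measurable typ := by
  unfold typ
  refine Measurable.ite (measurableSet_ev _) measurable_const ?_
  exact Measurable.ite (measurableSet_ev _) measurable_const measurable_const

lemma typ_of_ev (θ : E2) (a : Ty) (h : ∀ᶠ k in atTop, tk k θ = a) : typ θ = a := by
  have huniq : ∀ b, (∀ᶠ k in atTop, tk k θ = b) → b = a := by
    intro b hb
    obtain ⟨k, hk1, hk2⟩ := (hb.and h).exists
    rw [← hk1, ← hk2]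
  unfold typ
  cases a with
  | P => rw [if_pos h]
  | N =>
    rw [if_neg, if_neg]
    · intro h2; exact absurd (huniq _ h2) (by decide)
    · intro h2; exact absurd (huniq _ h2) (by decide)
  | W =>
    rw [if_neg, if_pos h]
    intro h2; exact absurd (huniq _ h2) (by decide)

lemma typ_spec : ∀ᵐ θ ∂nu, ∀ᶠ k in atTop, tk k θ = typ θ := by
  have hs : (∑' k, nu {θ | tk (k + 1) θ ≠ tk k θ}) ≠ ⊤ := by
    have h1 : Summable (fun k : ℕ => (7 / 8 : ℝ) ^ k * (3 / 64)) :=
      (summable_geometric_of_lt_one (by norm_num) (by norm_num)).mul_right _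
    have h2 := h1.tsum_ofReal_ne_top
    refine ne_top_of_le_ne_top h2 ?_
    exact ENNReal.tsum_le_tsum bad_measure
  have h := ae_eventually_notMem hs
  filter_upwards [h] with θ hθ
  rw [eventually_atTop] at hθ
  obtain ⟨K, hK⟩ := hθ
  have hconst : ∀ k, K ≤ k → tk k θ = tk K θ := by
    intro k hk
    induction k, hk using Nat.le_induction with
    | base => rfl
    | succ k hk ih =>
      have := hK k hk
      simp only [Set.mem_ofPred_eq, not_not] at this
      rw [this, ih]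
  have hev : ∀ᶠ k in atTop, tk k θ = tk K θ := eventually_atTop.mpr ⟨K, hconst⟩
  rw [typ_of_ev θ _ hev]
  exact hev

lemma typ_spec_all : ∀ᵐ θ ∂nu, ∀ i : ℕ, ∀ᶠ k in atTop, tk k (θ + i) = typ (θ + i) := by
  rw [ae_all_iff]
  intro i
  have hmp := (measurePreserving_add_right nu (i : E2)).quasiMeasurePreserving
  have h := hmp.ae (p := fun θ : E2 => ∀ᶠ k in atTop, tk k θ = typ θ) typ_spec
  filter_upwards [h] with θ hθ
  exact hθ

/-- Averages of local functions. -/
lemma lim_avg (G : (ℕ → Ty) → ℝ) (M : ℕ) (C : ℝ)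
    (hG : ∀ f g : ℕ → Ty, (∀ i, i < M → f i = g i) → G f = G g) (hC : ∀ f, |G f| ≤ C) :
    Tendsto (fun k => (∑ x ∈ range (2 ^ (LL k).n), G (fun i => (LL k).t (x + i))) / 2 ^ (LL k).n)
      atTop (nhds (∫ θ, G (fun i => typ (θ + (i : ℕ))) ∂nu)) := by
  have h1 : ∀ k, (∑ x ∈ range (2 ^ (LL k).n), G (fun i => (LL k).t (x + i))) / 2 ^ (LL k).n =
      ∫ θ, G (fun i => tk k (θ + (i : ℕ))) ∂nu := by
    intro k
    rw [← integral_rs (LL k).n (fun x => G (fun i => (LL k).t (x + i)))]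
    refine integral_congr_ae (Eventually.of_forall fun θ => ?_)
    simp only [tk_add]
  simp only [h1]
  refine tendsto_integral_of_dominated_convergence (fun _ => C) ?_ (integrable_const C) ?_ ?_
  · intro k
    simp only [tk_add]
    exact ((measurable_of_countable (fun x : ℕ => G (fun i => (LL k).t (x + i)))).comp
      (measurable_rs _)).aestronglyMeasurable
  · intro k
    exact Eventually.of_forall fun θ => by rw [Real.norm_eq_abs]; exact hC _
  · filter_upwards [typ_spec_all] with θ hθ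
    have h2 : ∀ᶠ k in atTop, ∀ i, i < M → tk k (θ + i) = typ (θ + i) := by
      have : ∀ᶠ k in atTop, ∀ i ∈ Finset.range M, tk k (θ + i) = typ (θ + i) := by
        rw [Filter.eventually_all_finset]
        intro i _
        exact hθ i
      filter_upwards [this] with k hk i hi
      exact hk i (Finset.mem_range.mpr hi)
    refine tendsto_const_nhds.congr' ?_
    filter_upwards [h2] with k hk
    exact (hG _ _ hk).symm

lemma integral_sg : ∫ θ, sg (typ θ) ∂nu = 0 := by
  have h := lim_avg (fun f => sg (f 0)) 1 1 (fun f g hfg => by rw [hfg 0 (by norm_num)])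
    (fun f => abs_le.mpr ⟨neg_one_le_sg _, sg_le_one _⟩)
  simp only [add_zero, Nat.cast_zero] at h
  have h2 : Tendsto (fun k => (∑ x ∈ range (2 ^ (LL k).n), sg ((LL k).t x)) / 2 ^ (LL k).n)
      atTop (nhds 0) := by
    have h3 : Tendsto (fun k : ℕ => (7 / 8 : ℝ) ^ k * (3 / 16)) atTop (nhds (0 * (3 / 16))) :=
      (tendsto_pow_atTop_nhds_zero_of_lt_one (by norm_num) (by norm_num)).mul_const _
    rw [zero_mul] at h3
    refine squeeze_zero (fun k => ?_) (fun k => ?_) h3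
    · rw [(LL k).hs]; positivity
    · rw [(LL k).hs]; exact LL_eps k
  exact tendsto_nhds_unique h h2

lemma integral_wi : 5 / 512 ≤ ∫ θ, wi (typ θ) ∂nu := by
  have h := lim_avg (fun f => wi (f 0)) 1 1 (fun f g hfg => by rw [hfg 0 (by norm_num)])
    (fun f => abs_le.mpr ⟨by linarith [wi_nonneg (f 0)], wi_le_one _⟩)
  simp only [add_zero, Nat.cast_zero] at h
  exact ge_of_tendsto' h LL_dw

/-- Excursion functional. -/
noncomputable def gz (z : ℕ) (θ : E2) : ℝ :=
  wi (typ θ) * ∏ i ∈ range z, rf (1 + i) (typ (θ + ((1 + i : ℕ) : E2)))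

lemma integral_exc (M : ℕ) : ∫ θ, ∑ z ∈ range M, gz z θ ∂nu ≤ 7 / 8 := by
  set G : (ℕ → Ty) → ℝ := fun f =>
    ∑ z ∈ range M, wi (f 0) * ∏ i ∈ range z, rf (1 + i) (f (1 + i)) with hGdef
  have hC : ∀ f, |G f| ≤ M := by
    intro f
    simp only [hGdef]
    calc |∑ z ∈ range M, wi (f 0) * ∏ i ∈ range z, rf (1 + i) (f (1 + i))| ≤
        ∑ z ∈ range M, |wi (f 0) * ∏ i ∈ range z, rf (1 + i) (f (1 + i))| :=
          abs_sum_le_sum_abs _ _
      _ ≤ ∑ _z ∈ range M, (1 : ℝ) := by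
        refine sum_le_sum fun z _ => ?_
        have p1 : 0 ≤ ∏ i ∈ range z, rf (1 + i) (f (1 + i)) := prod_nonneg fun _ _ => rf_nonneg _ _
        have p2 : ∏ i ∈ range z, rf (1 + i) (f (1 + i)) ≤ 1 :=
          prod_le_one (fun _ _ => rf_nonneg _ _) (fun _ _ => rf_le_one _ _)
        rw [abs_of_nonneg (mul_nonneg (wi_nonneg _) p1)]
        exact mul_le_one₀ (wi_le_one _) p1 p2
      _ = M := by simp
  have hG : ∀ f g : ℕ → Ty, (∀ i, i < M + 1 → f i = g i) → G f = G g := by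
    intro f g hfg
    simp only [hGdef]
    refine sum_congr rfl fun z hz => ?_
    have hz' := mem_range.mp hz
    rw [hfg 0 (by omega)]
    congr 1
    refine prod_congr rfl fun i hi => ?_
    have hi' := mem_range.mp hi
    rw [hfg (1 + i) (by omega)]
  have h := lim_avg G (M + 1) M hG hC
  have h2 : (fun θ : E2 => G (fun i => typ (θ + (i : ℕ)))) = fun θ => ∑ z ∈ range M, gz z θ := by
    funext θ
    simp only [hGdef, gz, Nat.cast_zero, add_zero]
  rw [h2] at h
  refine le_of_tendsto' h (fun k => ?_)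
  have h3 : ∑ x ∈ range (2 ^ (LL k).n), G (fun i => (LL k).t (x + i)) =
      ∑ w ∈ range (2 ^ (LL k).n), wi ((LL k).t w) * SS (LL k).t (w + 1) 1 M := by
    refine sum_congr rfl fun w _ => ?_
    simp only [hGdef, SS, sv, add_zero]
    rw [mul_sum]
    refine sum_congr rfl fun z _ => ?_
    congr 1
    refine prod_congr rfl fun i _ => ?_
    congr 2
    ring
  rw [h3, div_le_iff₀ (by positivity)]
  refine ((LL k).hF M).trans ?_
  exact mul_le_mul_of_nonneg_right (LL_F k) (by positivity)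

end Pool.Agent.ERW
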