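import Pool.Agent.Lib.MP_05ceff_pr.Walk
import Pool.Agent.Lib.MP_05ceff_pr.Limit

set_option autoImplicit false

namespace Pool.Agent.ERW

open Finset MeasureTheory Filter

/-- Stacks indexed from `1`. -/
noncomputable def stk1 (t : Ty) : ℕ → ℝ
  | 0 => 1 / 2
  | i + 1 => stk t i

/-- The environment attached to a point of the odometer. -/
noncomputable def envf (θ : E2) (z : ℤ) (i : ℕ) : ℝ := stk1 (typ (θ - (z : E2))) i

lemma stk1_mem (t : Ty) (i : ℕ) : 0 ≤ stk1 t i ∧ stk1 t i ≤ 1 := by
  cases i with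
  | zero => simp only [stk1]; norm_num
  | succ i => exact stk_pr t i

lemma envf_isEnv (θ : E2) : IsEnv (envf θ) := fun _ _ => stk1_mem _ _

lemma measurable_envf : Measurable envf := by
  rw [measurable_pi_iff]
  intro z
  rw [measurable_pi_iff]
  intro i
  show Measurable (fun θ => stk1 (typ (θ - (z : E2))) i)
  exact (measurable_of_countable (fun t : Ty => stk1 t i)).comp
    (measurable_typ.comp (measurable_sub_const (z : E2)))

/-- The shift on environments. -/
def shiftE (e : ℤ → ℕ → ℝ) (x : ℤ) : ℕ → ℝ := e (x + 1)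

lemma measurable_shiftE : Measurable shiftE := by
  rw [measurable_pi_iff]
  intro z
  exact measurable_pi_apply (z + 1)

lemma envf_semiconj : Function.Semiconj envf (fun θ : E2 => (-1 : E2) + θ) shiftE := by
  intro θ
  funext z i
  show stk1 (typ (-1 + θ - (z : E2))) i = stk1 (typ (θ - ((z + 1 : ℤ) : E2))) i
  congr 2
  push_cast
  ring

lemma ergodic_shift : Ergodic shiftE (nu.map envf) := by
  have h : MeasurePreserving envf nu (nu.map envf) := ⟨measurable_envf, rfl⟩
  exact h.ergodic_of_ergodic_semiconj ergodic_neg_one measurable_shiftE envf_semiconj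

/-- Types of the sites `1,2,...`. -/
noncomputable def tau (θ : E2) (z : ℕ) : Ty := typ (θ - ((z : E2) + 1))

lemma envf_tau (θ : E2) (z i : ℕ) : envf θ ((z : ℤ) + 1) (i + 1) = stk (tau θ z) i := by
  unfold envf tau
  show stk (typ (θ - (((z : ℤ) + 1 : ℤ) : E2))) i = _
  congr 2
  push_cast
  ring

lemma exc_eq (θ : E2) (z : ℕ) : exc (tau θ) z = gz z (θ + (-((z : E2) + 1))) := by
  unfold exc gz
  have h0 : tau θ z = typ (θ + (-((z : E2) + 1))) := by
    unfold tau; rw [sub_eq_add_neg]
  have hprod : ∏ i ∈ range z, rf (1 + i) (tau θ (z - 1 - i)) =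
      ∏ i ∈ range z, rf (1 + i) (typ (θ + (-((z : E2) + 1)) + ((1 + i : ℕ) : E2))) := by
    refine prod_congr rfl fun i hi => ?_
    have hi' := mem_range.mp hi
    unfold tau
    congr 2
    have : ((z - 1 - i : ℕ) : E2) = (z : E2) - 1 - i := by
      rw [Nat.cast_sub (by omega), Nat.cast_sub (by omega)]; push_cast; ring
    rw [this]
    push_cast
    ring
  rw [hprod, ← h0]
  unfold wi
  split_ifs <;> simp

lemma measurable_gz (z : ℕ) : Measurable (gz z) := by
  unfold gz
  refine Measurable.mul ?_ ?_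
  · exact (measurable_of_countable wi).comp measurable_typ
  · refine Finset.measurable_prod _ fun i _ => ?_
    exact (measurable_of_countable (rf (1 + i))).comp
      (measurable_typ.comp (measurable_add_const _))

lemma gz_mem (z : ℕ) (θ : E2) : 0 ≤ gz z θ ∧ gz z θ ≤ 1 := by
  unfold gz
  have p1 : 0 ≤ ∏ i ∈ range z, rf (1 + i) (typ (θ + ((1 + i : ℕ) : E2))) :=
    prod_nonneg fun _ _ => rf_nonneg _ _
  have p2 : ∏ i ∈ range z, rf (1 + i) (typ (θ + ((1 + i : ℕ) : E2))) ≤ 1 :=
    prod_le_one (fun _ _ => rf_nonneg _ _) (fun _ _ => rf_le_one _ _)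
  exact ⟨mul_nonneg (wi_nonneg _) p1, mul_le_one₀ (wi_le_one _) p1 p2⟩

lemma integrable_gz (z : ℕ) : Integrable (gz z) nu := by
  refine Integrable.of_bound (C := 1) (measurable_gz z).aestronglyMeasurable ?_
  refine Eventually.of_forall fun θ => ?_
  rw [Real.norm_eq_abs, abs_of_nonneg (gz_mem z θ).1]
  exact (gz_mem z θ).2

lemma integrable_exc (z : ℕ) : Integrable (fun θ => exc (tau θ) z) nu := by
  have h : (fun θ => exc (tau θ) z) = fun θ => gz z (θ + (-((z : E2) + 1))) := by
    funext θ; exact exc_eq θ z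
  rw [h]
  exact (integrable_gz z).comp_add_right _

lemma integral_exc_eq (z : ℕ) : ∫ θ, exc (tau θ) z ∂nu = ∫ θ, gz z θ ∂nu := by
  have h : (fun θ => exc (tau θ) z) = fun θ => gz z (θ + (-((z : E2) + 1))) := by
    funext θ; exact exc_eq θ z
  rw [h]
  exact integral_add_right_eq_self (μ := nu) (gz z) (-((z : E2) + 1))

lemma integral_exc_sum (M : ℕ) : ∫ θ, ∑ z ∈ range M, exc (tau θ) z ∂nu ≤ 7 / 8 := by
  rw [integral_finsetSum _ (fun z _ => integrable_exc z)]
  simp only [integral_exc_eq]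
  rw [← integral_finsetSum _ (fun z _ => integrable_gz z)]
  exact integral_exc M

/-- The probability space. -/
abbrev Om : Type := E2 × (ℕ → ℝ)

/-- The probability measure. -/
noncomputable def mu0 : Measure Om := nu.prod lam

instance : IsProbabilityMeasure mu0 := by unfold mu0; infer_instance

/-- The environment. -/
noncomputable def env0 (w : Om) : ℤ → ℕ → ℝ := envf w.1

/-- The uniform random variables. -/
def U0 (n : ℕ) (w : Om) : ℝ := w.2 n

/-- The state of the walk. -/
noncomputable def st0 (w : Om) (n : ℕ) : ℤ × (ℤ → ℕ) := run (env0 w) (0, fun _ => 0) w.2 n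

/-- The walk. -/
noncomputable def X0 (n : ℕ) (w : Om) : ℤ := (st0 w n).1

lemma measurable_env0 : Measurable env0 := measurable_envf.comp measurable_fst

lemma map_env0 : mu0.map env0 = nu.map envf := by
  have h1 : mu0.map (Prod.fst : Om → E2) = nu := by
    unfold mu0
    rw [Measure.map_fst_prod, measure_univ, one_smul]
  have h2 : env0 = envf ∘ (Prod.fst : Om → E2) := rfl
  rw [h2, ← Measure.map_map measurable_envf measurable_fst, h1]

lemma map_snd0 : mu0.map (Prod.snd : Om → (ℕ → ℝ)) = lam := by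
  unfold mu0
  rw [Measure.map_snd_prod, measure_univ, one_smul]

lemma measurable_U0 (n : ℕ) : Measurable (U0 n) := (measurable_pi_apply n).comp measurable_snd

lemma indep_U0 : ProbabilityTheory.iIndepFun U0 mu0 := by
  refine (ProbabilityTheory.iIndepFun_iff_map_fun_eq_infinitePi_map (X := U0) (P := mu0)
    measurable_U0).mpr ?_
  have h1 : mu0.map (fun ω i => U0 i ω) = lam := map_snd0
  have h2 : ∀ i, mu0.map (U0 i) = unif := by
    intro i
    have h3 : U0 i = (fun v : ℕ → ℝ => v i) ∘ (Prod.snd : Om → (ℕ → ℝ)) := rfl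
    rw [h3, ← Measure.map_map (measurable_pi_apply i) measurable_snd, map_snd0]
    unfold lam
    exact Measure.infinitePi_map_eval (fun _ : ℕ => unif) i
  rw [h1]
  simp only [h2]
  rfl

lemma law_U0 (n : ℕ) : mu0.map (U0 n) = volume.restrict (Set.Icc (0 : ℝ) 1) := by
  have h3 : U0 n = (fun v : ℕ → ℝ => v n) ∘ (Prod.snd : Om → (ℕ → ℝ)) := rfl
  rw [h3, ← Measure.map_map (measurable_pi_apply n) measurable_snd, map_snd0]
  unfold lam
  exact Measure.infinitePi_map_eval (fun _ : ℕ => unif) n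

lemma indep_env0 : ProbabilityTheory.IndepFun env0 (fun w n => U0 n w) mu0 := by
  have h := ProbabilityTheory.indepFun_prod (μ := nu) (ν := lam) measurable_envf
    (measurable_id (α := ℕ → ℝ))
  exact h

/-- The remembered counts are the numbers of previous visits. -/
lemma count_eq (w : Om) (n : ℕ) (z : ℤ) :
    (st0 w n).2 z = ((range n).filter (fun m => X0 m w = z)).card := by
  induction n with
  | zero => simp [st0, run]
  | succ n ih =>
    have h1 : (st0 w (n + 1)).2 = addv (st0 w n).2 (st0 w n).1 := rfl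
    rw [h1, range_add_one, filter_insert]
    by_cases h : X0 n w = z
    · rw [if_pos h, card_insert_of_notMem (by simp)]
      have h' : (st0 w n).1 = z := h
      rw [h', addv_eq, ih]
    · have h' : z ≠ (st0 w n).1 := fun h2 => h h2.symm
      rw [if_neg h, addv_ne _ _ _ h', ih]

lemma X0_rec (n : ℕ) (w : Om) : X0 (n + 1) w = X0 n w +
    (if U0 n w < env0 w (X0 n w) ((range (n + 1)).filter (fun m => X0 m w = X0 n w)).card
      then (1 : ℤ) else -1) := by
  have h1 : ((range (n + 1)).filter (fun m => X0 m w = X0 n w)).card = (st0 w n).2 (X0 n w) + 1 := by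
    rw [range_add_one, filter_insert, if_pos rfl, card_insert_of_notMem (by simp), count_eq]
  rw [h1]
  have h2 : X0 (n + 1) w = if U0 n w < env0 w (X0 n w) ((st0 w n).2 (X0 n w) + 1)
      then X0 n w + 1 else X0 n w - 1 := rfl
  rw [h2]
  split_ifs <;> ring

/-- The walk is positive during steps `1..m`. -/
def Sm (m : ℕ) : Set Om := {w | ∀ i, 1 ≤ i → i ≤ m → 1 ≤ X0 i w}

lemma measurableSet_Sm (m : ℕ) : MeasurableSet (Sm m) := by
  have h := measurableSet_Good' m (0, fun _ => 0)
  have h2 : Measurable (fun w : Om => (env0 w, w.2)) := measurable_env0.prodMk measurable_snd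
  exact h2 h

lemma Sm_lower (m : ℕ) : ENNReal.ofReal (1 / 16) ≤ mu0 (Sm (m + 1)) := by
  unfold mu0
  rw [Measure.prod_apply (measurableSet_Sm (m + 1))]
  set f : E2 → ℝ := fun θ => 1 / 2 * (1 - ∑ z ∈ range (m + 1), exc (tau θ) z) with hf
  have h1 : ∀ θ : E2, ENNReal.ofReal (f θ) ≤ lam (Prod.mk θ ⁻¹' Sm (m + 1)) := by
    intro θ
    have h2 := lam_Good_zero (envf θ) (envf_isEnv θ) (tau θ) (envf_tau θ) m (by
      show 1 / 2 ≤ stk (typ (θ - ((0 : ℤ) : E2))) 0
      rcases typ (θ - ((0 : ℤ) : E2)) with _ | _ | _ <;> simp only [stk] <;> norm_num)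
    exact h2
  have hint : Integrable (fun θ => ∑ z ∈ range (m + 1), exc (tau θ) z) nu :=
    integrable_finsetSum _ (fun z _ => integrable_exc z)
  have hfint : Integrable f nu := ((integrable_const (1 : ℝ)).sub hint).const_mul (1 / 2)
  have h3 : 1 / 16 ≤ ∫ θ, f θ ∂nu := by
    simp only [hf]
    rw [integral_const_mul, integral_sub (integrable_const _) hint]
    have h4 := integral_exc_sum (m + 1)
    simp only [integral_const, probReal_univ, smul_eq_mul, mul_one]
    linarith
  have h5 : ENNReal.ofReal (∫ θ, f θ ∂nu) ≤ ∫⁻ θ, ENNReal.ofReal (f θ) ∂nu := by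
    rw [integral_eq_lintegral_pos_part_sub_lintegral_neg_part hfint]
    have h6 : (∫⁻ θ, ENNReal.ofReal (f θ) ∂nu) ≠ ⊤ := hfint.lintegral_lt_top.ne
    calc ENNReal.ofReal ((∫⁻ θ, ENNReal.ofReal (f θ) ∂nu).toReal -
          (∫⁻ θ, ENNReal.ofReal (-f θ) ∂nu).toReal) ≤
        ENNReal.ofReal ((∫⁻ θ, ENNReal.ofReal (f θ) ∂nu).toReal) :=
          ENNReal.ofReal_le_ofReal (by linarith [ENNReal.toReal_nonneg (a := ∫⁻ θ, ENNReal.ofReal (-f θ) ∂nu)])
      _ = _ := ENNReal.ofReal_toReal h6
  calc ENNReal.ofReal (1 / 16) ≤ ENNReal.ofReal (∫ θ, f θ ∂nu) := ENNReal.ofReal_le_ofReal h3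
    _ ≤ ∫⁻ θ, ENNReal.ofReal (f θ) ∂nu := h5
    _ ≤ _ := lintegral_mono h1

lemma not_recurrent : ¬ ∀ᵐ w ∂mu0, ∃ᶠ n in atTop, X0 n w = 0 := by
  intro h
  have h1 : mu0 (⋂ m, Sm (m + 1)) = 0 := by
    rw [ae_iff] at h
    refine measure_mono_null ?_ h
    intro w hw
    simp only [Set.mem_ofPred_eq]
    intro hfr
    rw [frequently_atTop] at hfr
    obtain ⟨n, hn1, hn2⟩ := hfr 1
    have := Set.mem_iInter.mp hw n n hn1 (by omega)
    omega
  have hanti : Antitone (fun m => Sm (m + 1)) := by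
    intro a b hab w hw i h1 h2
    exact hw i h1 (by omega)
  have h2 := tendsto_measure_iInter_atTop (μ := mu0)
    (fun m => (measurableSet_Sm (m + 1)).nullMeasurableSet) hanti ⟨0, measure_ne_top _ _⟩
  rw [h1] at h2
  have h3 := ge_of_tendsto' h2 Sm_lower
  have h4 : (0 : ENNReal) < ENNReal.ofReal (1 / 16) := ENNReal.ofReal_pos.mpr (by norm_num)
  exact absurd h3 (not_le.mpr h4)

/-- Total drift of a stack. -/
lemma stack_drift (t : Ty) : (∑' i : ℕ, (2 * stk1 t (i + 1) - 1)) = 1 + sg t := by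
  rw [tsum_eq_sum (s := range 2)]
  · cases t <;> simp [sum_range_succ, stk1, stk, sg] <;> norm_num
  · intro i hi
    have hi' : 2 ≤ i := by rw [mem_range, not_lt] at hi; exact hi
    obtain ⟨j, rfl⟩ : ∃ j, i = j + 2 := ⟨i - 2, by omega⟩
    cases t <;> simp [stk1, stk]

lemma drift_eq : ∫ w, (∑' i : ℕ, (2 * env0 w 0 (i + 1) - 1)) ∂mu0 = 1 := by
  have h1 : ∀ w : Om, (∑' i : ℕ, (2 * env0 w 0 (i + 1) - 1)) = 1 + sg (typ w.1) := by
    intro w
    have h2 := stack_drift (typ w.1)
    rw [← h2]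
    have h3 : ∀ i, env0 w 0 (i + 1) = stk1 (typ w.1) (i + 1) := by
      intro i
      show stk1 (typ (w.1 - ((0 : ℤ) : E2))) (i + 1) = _
      simp
    simp only [h3]
  simp only [h1]
  have hm : Measurable (fun θ : E2 => 1 + sg (typ θ)) :=
    measurable_const.add ((measurable_of_countable sg).comp measurable_typ)
  have h4 : ∫ w : Om, (1 + sg (typ w.1)) ∂mu0 = ∫ θ, (1 + sg (typ θ)) ∂nu := by
    have h5 : mu0.map (Prod.fst : Om → E2) = nu := by
      unfold mu0
      rw [Measure.map_fst_prod, measure_univ, one_smul]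
    conv_rhs => rw [← h5]
    rw [integral_map measurable_fst.aemeasurable hm.aestronglyMeasurable]
  rw [h4]
  have hsg : Integrable (fun θ : E2 => sg (typ θ)) nu := by
    refine Integrable.of_bound (C := 1)
      ((measurable_of_countable sg).comp measurable_typ).aestronglyMeasurable ?_
    exact Eventually.of_forall fun θ =>
      abs_le.mpr ⟨neg_one_le_sg _, sg_le_one _⟩
  rw [integral_add (integrable_const _) hsg, integral_sg]
  simp

lemma pos_W : 0 < nu {θ | typ θ = Ty.W} := by
  have hm : MeasurableSet {θ : E2 | typ θ = Ty.W} :=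
    measurable_typ (MeasurableSet.of_discrete (s := {Ty.W}))
  have h1 : ∫ θ, wi (typ θ) ∂nu = nu.real {θ | typ θ = Ty.W} := by
    rw [← integral_indicator_one hm]
    refine integral_congr_ae (Eventually.of_forall fun θ => ?_)
    simp only [Set.indicator, Set.mem_ofPred_eq, Pi.one_apply, wi]
  have h2 := integral_wi
  rw [h1] at h2
  by_contra h
  have h3 : nu {θ | typ θ = Ty.W} = 0 := by simpa using h
  have h4 : nu.real {θ | typ θ = Ty.W} = 0 := by
    unfold Measure.real; rw [h3]; simp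
  rw [h4] at h2
  norm_num at h2

lemma pos_W' (S : Set Om) (hS : ∀ w : Om, typ w.1 = Ty.W → w ∈ S) : 0 < mu0 S := by
  have h1 : mu0 (Prod.fst ⁻¹' {θ | typ θ = Ty.W}) = nu {θ | typ θ = Ty.W} := by
    have hm : MeasurableSet {θ : E2 | typ θ = Ty.W} :=
      measurable_typ (MeasurableSet.of_discrete (s := {Ty.W}))
    have h5 : mu0.map (Prod.fst : Om → E2) = nu := by
      unfold mu0
      rw [Measure.map_fst_prod, measure_univ, one_smul]
    conv_rhs => rw [← h5]
    rw [Measure.map_apply measurable_fst hm]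
  have h2 : 0 < mu0 (Prod.fst ⁻¹' {θ | typ θ = Ty.W}) := by rw [h1]; exact pos_W
  exact h2.trans_le (measure_mono fun w hw => hS w hw)

end Pool.Agent.ERW
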