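import Pool.Agent.Lib.MP_05ceff_pr.Fair

set_option autoImplicit false

namespace Pool.Agent.ERW

open Finset

/-- The three types of cookie stacks. -/
inductive Ty
  | P | N | W
  deriving DecidableEq

/-- Success probabilities, indexed from `0`. -/
noncomputable def stk : Ty → ℕ → ℝ
  | Ty.P, 0 => 1
  | Ty.P, 1 => 1
  | Ty.P, _ + 2 => 1 / 2
  | Ty.N, 0 => 1
  | Ty.N, 1 => 0
  | Ty.N, _ + 2 => 1 / 2
  | Ty.W, _ => 1 / 2

lemma stk_pr (t : Ty) : IsPr (stk t) := by
  intro i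
  cases t <;> rcases i with _ | _ | i <;> simp [stk] <;> norm_num

/-- The one-site kernel. -/
noncomputable def KT : Ty → (ℕ → ℝ) → (ℕ → ℝ)
  | Ty.P => KP
  | Ty.N => KN
  | Ty.W => KW

lemma KT_unit (t : Ty) (h : ℕ → ℝ) (hh : Unit01 h) : Unit01 (KT t h) := by
  cases t
  · exact KP_unit h hh
  · exact KN_unit h hh
  · exact KW_unit h hh

lemma KT_dec (t : Ty) (h : ℕ → ℝ) (hh : Unit01 h) (hd : Dec h) : Dec (KT t h) := by
  cases t
  · exact KP_dec h hh hd
  · exact KN_dec h hh hd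
  · exact KW_dec h hh hd

lemma KT_eq (t : Ty) (h : ℕ → ℝ) (hh : Unit01 h) (d : ℕ) : KT t h d = A (stk t) h (d + 1) := by
  cases t with
  | P =>
    have ht : tl (tl (stk Ty.P)) = fair := by
      funext i; simp [tl, stk, fair]
    rw [A_succ _ (stk_pr _) h hh]
    have h0 : stk Ty.P 0 = 1 := rfl
    rw [h0, one_mul, sub_self, zero_mul, add_zero]
    cases d with
    | zero => rw [A_zero]; rfl
    | succ j =>
      rw [A_succ _ (stk_pr _).tl h hh]
      have h1 : tl (stk Ty.P) 0 = 1 := rfl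
      rw [h1, one_mul, sub_self, zero_mul, add_zero, ht]
      rfl
  | N =>
    have ht : tl (tl (stk Ty.N)) = fair := by
      funext i; simp [tl, stk, fair]
    rw [A_succ _ (stk_pr _) h hh]
    have h0 : stk Ty.N 0 = 1 := rfl
    rw [h0, one_mul, sub_self, zero_mul, add_zero]
    cases d with
    | zero => rw [A_zero]; rfl
    | succ j =>
      rw [A_succ _ (stk_pr _).tl h hh]
      have h1 : tl (stk Ty.N) 0 = 0 := rfl
      rw [h1, zero_mul, zero_add, sub_zero, one_mul, ht]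
      rfl
  | W =>
    have ht : stk Ty.W = fair := by
      funext i; simp [stk, fair]
    rw [ht]; rfl

/-- The indicator of `0`. -/
noncomputable def ind0 : ℕ → ℝ := fun d => if d = 0 then 1 else 0

lemma ind0_unit : Unit01 ind0 := by
  intro d; unfold ind0; split_ifs <;> norm_num

lemma ind0_dec : Dec ind0 := by
  intro d; unfold ind0
  rw [if_neg (Nat.succ_ne_zero d)]
  split_ifs <;> norm_num

/-- Probability (as a function of the number of left crossings of the edge to the right of site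
`z`) that no left crossing from site `1` occurs; `τ z` is the type of site `z+1`. -/
noncomputable def H (τ : ℕ → Ty) : ℕ → (ℕ → ℝ)
  | 0 => ind0
  | z + 1 => KT (τ z) (H τ z)

lemma H_unit (τ : ℕ → Ty) (z : ℕ) : Unit01 (H τ z) := by
  induction z with
  | zero => exact ind0_unit
  | succ z ih => exact KT_unit _ _ ih

lemma H_dec (τ : ℕ → Ty) (z : ℕ) : Dec (H τ z) := by
  induction z with
  | zero => exact ind0_dec
  | succ z ih => exact KT_dec _ _ (H_unit τ z) ih

/-- Survival factor of an excursion of age `a` at a site of a given type. -/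
noncomputable def rf (a : ℕ) : Ty → ℝ
  | Ty.P => (a : ℝ) / (a + 2)
  | Ty.N => 1
  | Ty.W => 1

lemma rf_nonneg (a : ℕ) (t : Ty) : 0 ≤ rf a t := by
  cases t <;> simp only [rf] <;> positivity

lemma rf_le_one (a : ℕ) (t : Ty) : rf a t ≤ 1 := by
  cases t
  · simp only [rf]; rw [div_le_one (by positivity)]; linarith
  · simp only [rf]; exact le_refl _
  · simp only [rf]; exact le_refl _

/-- `mu a h ≤ h 0` for decreasing `h`. -/
lemma mu_le (a : ℕ) (h : ℕ → ℝ) (hh : Unit01 h) (hd : Dec h) : mu a h ≤ h 0 := by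
  unfold mu
  have p1 : (0 : ℝ) < (a : ℝ) + 1 := by positivity
  have h0 : (0 : ℝ) ≤ (a : ℝ) / (a + 1) := by positivity
  have h1 : (a : ℝ) / (a + 1) < 1 := by rw [div_lt_one p1]; linarith
  have h2 : T ((a : ℝ) / (a + 1)) (tl h) ≤ (1 - (a : ℝ) / (a + 1))⁻¹ * h 0 := by
    unfold T
    rw [← tsum_geometric_of_lt_one h0 h1, ← tsum_mul_right]
    refine (T_summable _ _ hh.tl h0 h1).tsum_le_tsum (fun i => ?_)
      ((summable_geometric_of_lt_one h0 h1).mul_right _)
    exact mul_le_mul_of_nonneg_left (hd.le_zero (i + 1)) (pow_nonneg h0 i)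
  have h3 : (1 - (a : ℝ) / (a + 1))⁻¹ = a + 1 := by
    have : 1 - (a : ℝ) / (a + 1) = 1 / (a + 1) := by field_simp; ring
    rw [this]; simp
  rw [h3] at h2
  calc 1 / ((a : ℝ) + 1) * T ((a : ℝ) / (a + 1)) (tl h) ≤ 1 / ((a : ℝ) + 1) * ((a + 1) * h 0) :=
        mul_le_mul_of_nonneg_left h2 (by positivity)
    _ = h 0 := by field_simp

/-- Defect. -/
noncomputable def vf (τ : ℕ → Ty) (z a : ℕ) : ℝ := H τ z 0 - mu a (H τ z)

lemma vf_nonneg (τ : ℕ → Ty) (z a : ℕ) : 0 ≤ vf τ z a := by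
  unfold vf; linarith [mu_le a (H τ z) (H_unit τ z) (H_dec τ z)]

lemma vf_zero (τ : ℕ → Ty) (a : ℕ) : vf τ 0 a = 1 := by
  unfold vf mu T
  have h1 : ∀ i, ((a : ℝ) / (a + 1)) ^ i * tl (H τ 0) i = 0 := by
    intro i
    have : tl (H τ 0) i = 0 := by
      show (if i + 1 = 0 then (1 : ℝ) else 0) = 0
      rw [if_neg (Nat.succ_ne_zero i)]
    rw [this, mul_zero]
  simp only [h1, tsum_zero, mul_zero, sub_zero]
  show (if (0 : ℕ) = 0 then (1 : ℝ) else 0) = 1
  simp

lemma vf_P (τ : ℕ → Ty) (z a : ℕ) (ht : τ z = Ty.P) :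
    vf τ (z + 1) a = (a : ℝ) / (a + 2) * vf τ z (a + 1) := by
  unfold vf
  have e1 : H τ (z + 1) = KP (H τ z) := by show KT (τ z) (H τ z) = _; rw [ht]; rfl
  rw [e1, mu_KP a _ (H_unit τ z)]
  have e2 : KP (H τ z) 0 = H τ z 0 := rfl
  rw [e2]
  have p2 : (a : ℝ) + 2 ≠ 0 := by positivity
  field_simp
  ring

lemma vf_N (τ : ℕ → Ty) (z a : ℕ) (ha : 1 ≤ a) (ht : τ z = Ty.N) :
    vf τ (z + 1) a = vf τ z (a + 1) := by
  unfold vf
  have e1 : H τ (z + 1) = KN (H τ z) := by show KT (τ z) (H τ z) = _; rw [ht]; rfl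
  rw [e1, mu_KN a ha _ (H_unit τ z)]
  rfl

lemma H_W_zero (τ : ℕ → Ty) (z : ℕ) (ht : τ z = Ty.W) :
    H τ (z + 1) 0 = H τ z 0 - 1 / 2 * vf τ z 1 := by
  have e1 : H τ (z + 1) = KW (H τ z) := by show KT (τ z) (H τ z) = _; rw [ht]; rfl
  rw [e1]
  show Q (H τ z) 1 = _
  rw [Q_one_eq _ (H_unit τ z), T_rec _ _ (H_unit τ z) (by norm_num) (by norm_num)]
  unfold vf
  rw [mu_one]
  ring

lemma vf_W (τ : ℕ → Ty) (z a : ℕ) (ha : 1 ≤ a) (ht : τ z = Ty.W) :
    vf τ (z + 1) a ≤ (1 + 1 / ((a : ℝ) * (a + 2))) * vf τ z (a + 1) := by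
  have e0 := H_W_zero τ z ht
  have e1 : H τ (z + 1) = KW (H τ z) := by show KT (τ z) (H τ z) = _; rw [ht]; rfl
  have e2 := mu_KW a ha _ (H_unit τ z)
  rw [← e1] at e2
  have e3 : vf τ (z + 1) a = (1 + 1 / ((a : ℝ) * (a + 2))) * vf τ z (a + 1) -
      (1 / (2 * (a : ℝ)) + 1 / 2) * vf τ z 1 := by
    have : vf τ (z + 1) a = H τ (z + 1) 0 - mu a (H τ (z + 1)) := rfl
    rw [this, e0, e2]
    unfold vf
    ring
  rw [e3]
  have := vf_nonneg τ z 1
  have h2 : 0 ≤ 1 / (2 * (a : ℝ)) + 1 / 2 := by positivity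
  nlinarith [mul_nonneg h2 this]

lemma vf_bound (τ : ℕ → Ty) (z : ℕ) : ∀ a : ℕ, 1 ≤ a →
    vf τ z a ≤ (((a : ℝ) + 1) / a) * ∏ i ∈ range z, rf (a + i) (τ (z - 1 - i)) := by
  induction z with
  | zero =>
    intro a ha
    rw [vf_zero]
    simp only [range_zero, prod_empty, mul_one]
    rw [le_div_iff₀ (by positivity)]
    linarith
  | succ z ih =>
    intro a ha
    rw [prod_range_succ']
    have hz : z + 1 - 1 - 0 = z := by omega
    rw [hz, add_zero]
    have hprod : ∏ k ∈ range z, rf (a + (k + 1)) (τ (z + 1 - 1 - (k + 1))) =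
        ∏ i ∈ range z, rf (a + 1 + i) (τ (z - 1 - i)) := by
      refine prod_congr rfl fun i _ => ?_
      have e1 : a + (i + 1) = a + 1 + i := by ring
      have e2 : z + 1 - 1 - (i + 1) = z - 1 - i := by omega
      rw [e1, e2]
    rw [hprod]
    have ih1 := ih (a + 1) (by omega)
    set PP := ∏ i ∈ range z, rf (a + 1 + i) (τ (z - 1 - i)) with hPP
    have hPP0 : 0 ≤ PP := prod_nonneg fun i _ => rf_nonneg _ _
    push_cast at ih1
    have pa : (0 : ℝ) < (a : ℝ) := by exact_mod_cast ha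
    have hC : ((a : ℝ) + 1 + 1) / ((a : ℝ) + 1) ≤ ((a : ℝ) + 1) / a := by
      rw [div_le_div_iff₀ (by positivity) pa]; nlinarith
    rcases ht : τ z with _ | _ | _
    · rw [vf_P τ z a ht]
      have : rf a Ty.P = (a : ℝ) / (a + 2) := rfl
      rw [this]
      have h4 : vf τ z (a + 1) ≤ ((a : ℝ) + 1) / a * PP :=
        ih1.trans (mul_le_mul_of_nonneg_right hC hPP0)
      calc (a : ℝ) / (a + 2) * vf τ z (a + 1) ≤ (a : ℝ) / (a + 2) * (((a : ℝ) + 1) / a * PP) :=
            mul_le_mul_of_nonneg_left h4 (by positivity)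
        _ = _ := by ring
    · rw [vf_N τ z a ha ht]
      have : rf a Ty.N = 1 := rfl
      rw [this, mul_one]
      exact ih1.trans (mul_le_mul_of_nonneg_right hC hPP0)
    · have : rf a Ty.W = 1 := rfl
      rw [this, mul_one]
      refine (vf_W τ z a ha ht).trans ?_
      calc (1 + 1 / ((a : ℝ) * (a + 2))) * vf τ z (a + 1) ≤
          (1 + 1 / ((a : ℝ) * (a + 2))) * (((a : ℝ) + 1 + 1) / ((a : ℝ) + 1) * PP) :=
            mul_le_mul_of_nonneg_left ih1 (by positivity)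
        _ = ((a : ℝ) + 1) / a * PP := by field_simp; ring

/-- Contribution of the excursions started at the site `z+1`. -/
noncomputable def exc (τ : ℕ → Ty) (z : ℕ) : ℝ :=
  if τ z = Ty.W then ∏ i ∈ range z, rf (1 + i) (τ (z - 1 - i)) else 0

lemma H_lower (τ : ℕ → Ty) (K : ℕ) : 1 - ∑ z ∈ range K, exc τ z ≤ H τ K 0 := by
  induction K with
  | zero =>
    simp only [range_zero, sum_empty, sub_zero]
    show (1 : ℝ) ≤ (if (0 : ℕ) = 0 then (1 : ℝ) else 0)
    simp
  | succ K ih =>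
    rw [sum_range_succ]
    rcases ht : τ K with _ | _ | _
    · have e1 : H τ (K + 1) 0 = H τ K 0 := by show KT (τ K) (H τ K) 0 = _; rw [ht]; rfl
      have e2 : exc τ K = 0 := by unfold exc; rw [ht]; simp
      rw [e1, e2]; linarith
    · have e1 : H τ (K + 1) 0 = H τ K 0 := by show KT (τ K) (H τ K) 0 = _; rw [ht]; rfl
      have e2 : exc τ K = 0 := by unfold exc; rw [ht]; simp
      rw [e1, e2]; linarith
    · rw [H_W_zero τ K ht]
      have e2 : exc τ K = ∏ i ∈ range K, rf (1 + i) (τ (K - 1 - i)) := by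
        unfold exc; rw [if_pos ht]
      have e3 := vf_bound τ K 1 (le_refl _)
      rw [e2]
      norm_num at e3
      linarith

end Pool.Agent.ERW
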