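import Pool.Agent.Lib.MP_05ceff_pr.Fresh

set_option autoImplicit false

namespace Pool.Agent.ERW

open Finset

/-- The remaining stack at site `z` after `c z` visits. -/
def sf (e : ℤ → ℕ → ℝ) (c : ℤ → ℕ) (z : ℤ) : ℕ → ℝ := fun i => e z (c z + i + 1)

/-- Environments with values in the unit interval. -/
def IsEnv (e : ℤ → ℕ → ℝ) : Prop := ∀ z i, 0 ≤ e z i ∧ e z i ≤ 1

lemma IsEnv.sf {e : ℤ → ℕ → ℝ} (he : IsEnv e) (c : ℤ → ℕ) (z : ℤ) : IsPr (sf e c z) :=
  fun i => he z (c z + i + 1)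

/-- The harmonic functions. -/
noncomputable def hf (e : ℤ → ℕ → ℝ) (c : ℤ → ℕ) (x : ℤ) : ℕ → (ℕ → ℝ)
  | 0 => ind0
  | z + 1 => fun d => A (sf e c ((z : ℤ) + 1)) (hf e c x z) (if (z : ℤ) + 1 < x then d else d + 1)

lemma hf_unit (e : ℤ → ℕ → ℝ) (he : IsEnv e) (c : ℤ → ℕ) (x : ℤ) (z : ℕ) :
    Unit01 (hf e c x z) := by
  induction z with
  | zero => exact ind0_unit
  | succ z ih => intro d; exact A_unit _ (he.sf c _) _ ih _

/-- Add a visit at `x`. -/
def addv (c : ℤ → ℕ) (x : ℤ) : ℤ → ℕ := Function.update c x (c x + 1)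

lemma addv_ne (c : ℤ → ℕ) (x y : ℤ) (h : y ≠ x) : addv c x y = c y := by
  unfold addv; rw [Function.update_of_ne h]

lemma addv_eq (c : ℤ → ℕ) (x : ℤ) : addv c x x = c x + 1 := by
  unfold addv; simp

lemma sf_addv_ne (e : ℤ → ℕ → ℝ) (c : ℤ → ℕ) (x y : ℤ) (h : y ≠ x) :
    sf e (addv c x) y = sf e c y := by
  unfold sf; rw [addv_ne c x y h]

lemma tl_sf (e : ℤ → ℕ → ℝ) (c : ℤ → ℕ) (x : ℤ) : tl (sf e c x) = sf e (addv c x) x := by
  funext i
  unfold tl sf
  rw [addv_eq]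
  congr 1
  ring

/-- Sites strictly to the left of the walker: no extra success needed. -/
lemma hf_left (e : ℤ → ℕ → ℝ) (c : ℤ → ℕ) (y x x' : ℤ) (z : ℕ) (h1 : (z : ℤ) < x)
    (h2 : (z : ℤ) < x') (h3 : (z : ℤ) < y) :
    hf e (addv c y) x z = hf e c x' z := by
  induction z with
  | zero => rfl
  | succ z ih =>
    have h1' : (z : ℤ) + 1 < x := by push_cast at h1; exact h1
    have h2' : (z : ℤ) + 1 < x' := by push_cast at h2; exact h2
    have h3' : (z : ℤ) + 1 < y := by push_cast at h3; exact h3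
    have := ih (by linarith) (by linarith) (by linarith)
    funext d
    show A (sf e (addv c y) ((z : ℤ) + 1)) (hf e (addv c y) x z) (if (z : ℤ) + 1 < x then d else d + 1)
      = A (sf e c ((z : ℤ) + 1)) (hf e c x' z) (if (z : ℤ) + 1 < x' then d else d + 1)
    rw [if_pos h1', if_pos h2', this, sf_addv_ne _ _ _ _ h3'.ne]

/-- Value of the harmonic function. -/
noncomputable def uf (e : ℤ → ℕ → ℝ) (K : ℕ) (x : ℤ) (c : ℤ → ℕ) : ℝ :=
  if x ≤ 0 then 0 else hf e c x K 0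

lemma uf_le_one (e : ℤ → ℕ → ℝ) (he : IsEnv e) (K : ℕ) (x : ℤ) (c : ℤ → ℕ) :
    uf e K x c ≤ 1 := by
  unfold uf
  split_ifs
  · norm_num
  · exact (hf_unit e he c x K 0).2

lemma uf_nonneg (e : ℤ → ℕ → ℝ) (he : IsEnv e) (K : ℕ) (x : ℤ) (c : ℤ → ℕ) :
    0 ≤ uf e K x c := by
  unfold uf
  split_ifs
  · exact le_refl _
  · exact (hf_unit e he c x K 0).1

lemma A_zero_fun (s : ℕ → ℝ) (d : ℕ) : A s (fun _ => 0) d = 0 := by
  unfold A; simp

/-- The second component after a step to the left. -/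
noncomputable def hl (e : ℤ → ℕ → ℝ) (c : ℤ → ℕ) (k : ℕ) (z : ℕ) : ℕ → ℝ :=
  if k = 0 then (fun _ => 0) else hf e (addv c ((k : ℤ) + 1)) (k : ℤ) z

lemma hl_unit (e : ℤ → ℕ → ℝ) (he : IsEnv e) (c : ℤ → ℕ) (k z : ℕ) : Unit01 (hl e c k z) := by
  unfold hl
  split_ifs
  · intro j; exact ⟨le_refl _, zero_le_one⟩
  · exact hf_unit e he _ _ _

lemma hf_harm (e : ℤ → ℕ → ℝ) (he : IsEnv e) (c : ℤ → ℕ) (k : ℕ) (z : ℕ) (hz : k + 1 ≤ z) :
    ∀ d, hf e c ((k : ℤ) + 1) z d =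
      e ((k : ℤ) + 1) (c ((k : ℤ) + 1) + 1) *
        hf e (addv c ((k : ℤ) + 1)) ((k : ℤ) + 1 + 1) z d +
      (1 - e ((k : ℤ) + 1) (c ((k : ℤ) + 1) + 1)) * hl e c k z d := by
  set x : ℤ := (k : ℤ) + 1 with hx
  set p := e x (c x + 1) with hp
  induction z, hz using Nat.le_induction with
  | base =>
    intro d
    have hkx : (k : ℤ) < x := by rw [hx]; linarith
    have hs0 : sf e c x 0 = p := by unfold sf; rw [hp]
    have e0 : hf e c x (k + 1) d = A (sf e c x) (hf e c x k) (d + 1) := by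
      show A (sf e c ((k : ℤ) + 1)) (hf e c x k) (if (k : ℤ) + 1 < x then d else d + 1) = _
      rw [if_neg (by rw [hx]; exact lt_irrefl _)]
    have e1 : hf e (addv c x) (x + 1) (k + 1) d = A (tl (sf e c x)) (hf e c x k) d := by
      show A (sf e (addv c x) ((k : ℤ) + 1)) (hf e (addv c x) (x + 1) k)
        (if (k : ℤ) + 1 < x + 1 then d else d + 1) = _
      rw [if_pos (by rw [hx]; linarith), tl_sf,
        hf_left e c x (x + 1) x k (by linarith) hkx hkx]
    have e2 : hl e c k (k + 1) d = A (tl (sf e c x)) (tl (hf e c x k)) (d + 1) := by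
      rcases Nat.eq_zero_or_pos k with hk | hk
      · subst hk
        have h0 : tl (hf e c x 0) = fun _ => 0 := by
          funext j
          show (if j + 1 = 0 then (1 : ℝ) else 0) = 0
          rw [if_neg (Nat.succ_ne_zero j)]
        rw [h0, A_zero_fun]
        unfold hl
        rw [if_pos rfl]
      · obtain ⟨k', rfl⟩ : ∃ k', k = k' + 1 := ⟨k - 1, by omega⟩
        unfold hl
        rw [if_neg (by omega), ← hx]
        show A (sf e (addv c x) (((k' + 1 : ℕ) : ℤ) + 1))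
          (hf e (addv c x) ((k' + 1 : ℕ) : ℤ) (k' + 1))
          (if ((k' + 1 : ℕ) : ℤ) + 1 < ((k' + 1 : ℕ) : ℤ) then d else d + 1) = _
        rw [if_neg (by linarith), tl_sf]
        have e3 : hf e (addv c x) ((k' + 1 : ℕ) : ℤ) (k' + 1) = tl (hf e c x (k' + 1)) := by
          funext j
          show A (sf e (addv c x) ((k' : ℤ) + 1)) (hf e (addv c x) ((k' + 1 : ℕ) : ℤ) k')
            (if (k' : ℤ) + 1 < ((k' + 1 : ℕ) : ℤ) then j else j + 1) =
            A (sf e c ((k' : ℤ) + 1)) (hf e c x k') (if (k' : ℤ) + 1 < x then j + 1 else j + 1 + 1)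
          have hk' : (k' : ℤ) + 1 < x := by rw [hx]; push_cast; linarith
          rw [if_neg (by push_cast; linarith), if_pos hk', sf_addv_ne _ _ _ _ hk'.ne,
            hf_left e c x _ x k' (by push_cast; linarith) (by linarith) (by linarith)]
        rw [e3]
    rw [e0, e1, e2, A_succ _ (he.sf c x) _ (hf_unit e he c x k), hs0]
  | succ z hz ih =>
    intro d
    have hzk : (k : ℤ) + 1 ≤ (z : ℤ) := by exact_mod_cast hz
    have hne : (z : ℤ) + 1 ≠ x := by rw [hx]; intro h; linarith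
    have e0 : hf e c x (z + 1) d = A (sf e c ((z : ℤ) + 1)) (hf e c x z) (d + 1) := by
      show A (sf e c ((z : ℤ) + 1)) (hf e c x z) (if (z : ℤ) + 1 < x then d else d + 1) = _
      rw [if_neg (by rw [hx]; linarith)]
    have e1 : hf e (addv c x) (x + 1) (z + 1) d =
        A (sf e c ((z : ℤ) + 1)) (hf e (addv c x) (x + 1) z) (d + 1) := by
      show A (sf e (addv c x) ((z : ℤ) + 1)) (hf e (addv c x) (x + 1) z)
        (if (z : ℤ) + 1 < x + 1 then d else d + 1) = _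
      rw [if_neg (by rw [hx]; linarith), sf_addv_ne _ _ _ _ hne]
    have e2 : hl e c k (z + 1) d = A (sf e c ((z : ℤ) + 1)) (hl e c k z) (d + 1) := by
      unfold hl
      split_ifs with hk
      · rw [A_zero_fun]
      · show A (sf e (addv c ((k : ℤ) + 1)) ((z : ℤ) + 1)) (hf e (addv c ((k : ℤ) + 1)) (k : ℤ) z)
          (if (z : ℤ) + 1 < (k : ℤ) then d else d + 1) = _
        rw [if_neg (by linarith), ← hx, sf_addv_ne _ _ _ _ hne]
    rw [e0, e1, e2, ← A_lin _ (he.sf c _) _ _ (hf_unit e he _ _ _) (hl_unit e he _ _ _)]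
    congr 1
    funext j
    exact ih j

lemma uf_harm (e : ℤ → ℕ → ℝ) (he : IsEnv e) (K : ℕ) (x : ℤ) (c : ℤ → ℕ) (h1 : 1 ≤ x)
    (h2 : x ≤ K) :
    uf e K x c = e x (c x + 1) * uf e K (x + 1) (addv c x) +
      (1 - e x (c x + 1)) * uf e K (x - 1) (addv c x) := by
  obtain ⟨k, rfl⟩ : ∃ k : ℕ, x = (k : ℤ) + 1 := ⟨(x - 1).toNat, by omega⟩
  have hK : k + 1 ≤ K := by exact_mod_cast h2
  have h := hf_harm e he c k K hK 0
  unfold uf
  rw [if_neg (by linarith), if_neg (by linarith), h]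
  congr 1
  congr 1
  unfold hl
  by_cases hk : k = 0
  · subst hk; simp
  · rw [if_neg hk, if_neg (by omega)]
    congr 2
    ring

/-- Fresh environment. -/
lemma hf_fresh (e : ℤ → ℕ → ℝ) (τ : ℕ → Ty) (c : ℤ → ℕ) (K : ℕ)
    (hc : ∀ z : ℕ, c ((z : ℤ) + 1) = 0)
    (hτ : ∀ z : ℕ, ∀ i : ℕ, e ((z : ℤ) + 1) (i + 1) = stk (τ z) i) :
    hf e c 1 K = H τ K := by
  induction K with
  | zero => rfl
  | succ z ih =>
    funext d
    show A (sf e c ((z : ℤ) + 1)) (hf e c 1 z) (if (z : ℤ) + 1 < 1 then d else d + 1) =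
      KT (τ z) (H τ z) d
    rw [if_neg (by linarith [Int.natCast_nonneg z]), ih, KT_eq _ _ (H_unit τ z)]
    congr 1
    funext i
    unfold sf
    rw [hc z, zero_add, hτ z i]

end Pool.Agent.ERW
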