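import Mathlib

set_option autoImplicit false

namespace Pool.Agent.ERW

open Finset

/-- Tail of a sequence. -/
def tl (s : ℕ → ℝ) : ℕ → ℝ := fun i => s (i + 1)

/-- A sequence of probabilities. -/
def IsPr (s : ℕ → ℝ) : Prop := ∀ i, 0 ≤ s i ∧ s i ≤ 1

lemma IsPr.tl {s : ℕ → ℝ} (h : IsPr s) : IsPr (tl s) := fun i => h (i + 1)

/-- Probability that exactly `j` failures precede the `d`-th success in independent trials with
success probabilities `s 0, s 1, ...`. -/
noncomputable def wt : ℕ → ℕ → (ℕ → ℝ) → ℝ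
  | 0, 0, _ => 1
  | 0, _ + 1, _ => 0
  | d + 1, 0, s => s 0 * wt d 0 (tl s)
  | d + 1, j + 1, s => s 0 * wt d (j + 1) (tl s) + (1 - s 0) * wt (d + 1) j (tl s)
termination_by d j => (d, j)

lemma wt_zero_zero (s : ℕ → ℝ) : wt 0 0 s = 1 := by rw [wt]
lemma wt_zero_succ (j : ℕ) (s : ℕ → ℝ) : wt 0 (j + 1) s = 0 := by rw [wt]
lemma wt_succ_zero (d : ℕ) (s : ℕ → ℝ) : wt (d + 1) 0 s = s 0 * wt d 0 (tl s) := by rw [wt]
lemma wt_succ_succ (d j : ℕ) (s : ℕ → ℝ) :
    wt (d + 1) (j + 1) s = s 0 * wt d (j + 1) (tl s) + (1 - s 0) * wt (d + 1) j (tl s) := by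
  rw [wt]

lemma wt_nonneg (d j : ℕ) : ∀ (s : ℕ → ℝ), IsPr s → 0 ≤ wt d j s := by
  induction d generalizing j with
  | zero =>
    intro s hs
    cases j with
    | zero => rw [wt_zero_zero]; norm_num
    | succ j => rw [wt_zero_succ]
  | succ d ihd =>
    induction j with
    | zero =>
      intro s hs
      rw [wt_succ_zero]
      exact mul_nonneg (hs 0).1 (ihd 0 _ hs.tl)
    | succ j ihj =>
      intro s hs
      rw [wt_succ_succ]
      exact add_nonneg (mul_nonneg (hs 0).1 (ihd _ _ hs.tl))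
        (mul_nonneg (by linarith [(hs 0).2]) (ihj _ hs.tl))

lemma wt_sum_succ (d n : ℕ) (s : ℕ → ℝ) (h : ℕ → ℝ) :
    ∑ j ∈ range (n + 1), wt (d + 1) j s * h j =
      s 0 * ∑ j ∈ range (n + 1), wt d j (tl s) * h j +
      (1 - s 0) * ∑ j ∈ range n, wt (d + 1) j (tl s) * h (j + 1) := by
  rw [sum_range_succ', sum_range_succ' (fun j => wt d j (tl s) * h j)]
  rw [wt_succ_zero]
  have : ∀ j, wt (d + 1) (j + 1) s * h (j + 1) =
      s 0 * (wt d (j + 1) (tl s) * h (j + 1)) + (1 - s 0) * (wt (d + 1) j (tl s) * h (j + 1)) := by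
    intro j; rw [wt_succ_succ]; ring
  simp_rw [this, sum_add_distrib, ← mul_sum]
  ring

lemma wt_sum_le (d n : ℕ) : ∀ (s : ℕ → ℝ), IsPr s → ∑ j ∈ range n, wt d j s ≤ 1 := by
  induction d generalizing n with
  | zero =>
    intro s hs
    cases n with
    | zero => simp
    | succ n =>
      rw [sum_range_succ']
      simp [wt_zero_zero, wt_zero_succ]
  | succ d ihd =>
    induction n with
    | zero => intro s hs; simp
    | succ n ihn =>
      intro s hs
      have h1 := wt_sum_succ d n s (fun _ => 1)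
      simp only [mul_one] at h1
      rw [h1]
      have h2 := ihd (n + 1) _ hs.tl
      have h3 := ihn _ hs.tl
      nlinarith [(hs 0).1, (hs 0).2]

lemma wt_summable (d : ℕ) (s : ℕ → ℝ) (hs : IsPr s) : Summable (fun j => wt d j s) :=
  summable_of_sum_range_le (fun j => wt_nonneg d j s hs) (fun n => wt_sum_le d n s hs)

/-- Functions with values in the unit interval. -/
def Unit01 (h : ℕ → ℝ) : Prop := ∀ j, 0 ≤ h j ∧ h j ≤ 1

lemma Unit01.abs {h : ℕ → ℝ} (hh : Unit01 h) (j : ℕ) : |h j| ≤ 1 := by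
  rw [abs_le]; constructor <;> linarith [(hh j).1, (hh j).2]

lemma Unit01.tl {h : ℕ → ℝ} (hh : Unit01 h) : Unit01 (tl h) := fun j => hh (j + 1)

lemma wt_mul_summable (d : ℕ) (s : ℕ → ℝ) (hs : IsPr s) (h : ℕ → ℝ) (hh : Unit01 h) :
    Summable (fun j => wt d j s * h j) := by
  refine Summable.of_nonneg_of_le (fun j => mul_nonneg (wt_nonneg d j s hs) (hh j).1)
    (fun j => ?_) (wt_summable d s hs)
  have := wt_nonneg d j s hs
  nlinarith [(hh j).2]

/-- Expected value of `h` of the number of failures before the `d`-th success. -/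
noncomputable def A (s : ℕ → ℝ) (h : ℕ → ℝ) (d : ℕ) : ℝ := ∑' j, wt d j s * h j

lemma A_zero (s : ℕ → ℝ) (h : ℕ → ℝ) : A s h 0 = h 0 := by
  unfold A
  rw [tsum_eq_single 0]
  · rw [wt_zero_zero, one_mul]
  · intro j hj
    obtain ⟨k, rfl⟩ := Nat.exists_eq_succ_of_ne_zero hj
    rw [wt_zero_succ, zero_mul]

lemma A_succ (s : ℕ → ℝ) (hs : IsPr s) (h : ℕ → ℝ) (hh : Unit01 h) (d : ℕ) :
    A s h (d + 1) = s 0 * A (tl s) h d + (1 - s 0) * A (tl s) (tl h) (d + 1) := by
  have h1 := (wt_mul_summable (d + 1) s hs h hh).hasSum.tendsto_sum_nat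
  have h2 := (wt_mul_summable d (tl s) hs.tl h hh).hasSum.tendsto_sum_nat
  have h3 := (wt_mul_summable (d + 1) (tl s) hs.tl (tl h) hh.tl).hasSum.tendsto_sum_nat
  have h1' := h1.comp (Filter.tendsto_add_atTop_nat 1)
  have h2' := h2.comp (Filter.tendsto_add_atTop_nat 1)
  have h4 := (h2'.const_mul (s 0)).add (h3.const_mul (1 - s 0))
  refine tendsto_nhds_unique h1' (h4.congr ?_)
  intro n
  simp only [Function.comp]
  rw [wt_sum_succ]
  rfl

lemma A_nonneg (s : ℕ → ℝ) (hs : IsPr s) (h : ℕ → ℝ) (hh : Unit01 h) (d : ℕ) : 0 ≤ A s h d :=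
  tsum_nonneg fun j => mul_nonneg (wt_nonneg d j s hs) (hh j).1

lemma A_mono (s : ℕ → ℝ) (hs : IsPr s) (h g : ℕ → ℝ) (hh : Unit01 h) (hg : Unit01 g)
    (hle : ∀ j, h j ≤ g j) (d : ℕ) : A s h d ≤ A s g d :=
  (wt_mul_summable d s hs h hh).tsum_le_tsum
    (fun j => mul_le_mul_of_nonneg_left (hle j) (wt_nonneg d j s hs))
    (wt_mul_summable d s hs g hg)

lemma unit01_one : Unit01 (fun _ => 1) := fun _ => ⟨zero_le_one, le_refl _⟩

lemma A_le_one (s : ℕ → ℝ) (hs : IsPr s) (h : ℕ → ℝ) (hh : Unit01 h) (d : ℕ) : A s h d ≤ 1 := by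
  have h1 : A s h d ≤ ∑' j, wt d j s := by
    refine (wt_mul_summable d s hs h hh).tsum_le_tsum (fun j => ?_) (wt_summable d s hs)
    have := wt_nonneg d j s hs
    nlinarith [(hh j).2]
  exact h1.trans (Real.tsum_le_of_sum_range_le (fun j => wt_nonneg d j s hs)
    (fun n => wt_sum_le d n s hs))

lemma A_unit (s : ℕ → ℝ) (hs : IsPr s) (h : ℕ → ℝ) (hh : Unit01 h) : Unit01 (A s h) :=
  fun d => ⟨A_nonneg s hs h hh d, A_le_one s hs h hh d⟩

/-- Convex combinations. -/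
lemma A_lin (s : ℕ → ℝ) (hs : IsPr s) (h g : ℕ → ℝ) (hh : Unit01 h) (hg : Unit01 g)
    (p q : ℝ) (d : ℕ) :
    A s (fun j => p * h j + q * g j) d = p * A s h d + q * A s g d := by
  unfold A
  rw [← tsum_mul_left, ← tsum_mul_left, ← Summable.tsum_add]
  · congr 1
    ext j
    ring
  · exact (wt_mul_summable d s hs h hh).mul_left p
  · exact (wt_mul_summable d s hs g hg).mul_left q

end Pool.Agent.ERW
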