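import Pool.Agent.Lib.MP_05ceff_pr.Step

set_option autoImplicit false

namespace Pool.Agent.ERW

open Finset

/-- A periodic pattern with positive total excess drift and controlled excursions. -/
structure Lev where
  n : ℕ
  t : ℕ → Ty
  s : ℕ
  F : ℝ
  per : ∀ x, t (x + 2 ^ n) = t x
  spos : 0 < s
  hs : ∑ i ∈ range (2 ^ n), sg (t i) = s
  hF : ∀ M, ∑ w ∈ range (2 ^ n), wi (t w) * SS t (w + 1) 1 M ≤ F * 2 ^ n

/-- Average excess drift. -/
noncomputable def Lev.eps (L : Lev) : ℝ := (L.s : ℝ) / 2 ^ L.n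

/-- Density of `W` sites. -/
noncomputable def Lev.dw (L : Lev) : ℝ := (∑ i ∈ range (2 ^ L.n), wi (L.t i)) / 2 ^ L.n

lemma Lev.s_le (L : Lev) : L.s ≤ 2 ^ L.n := by
  have h : (L.s : ℝ) ≤ ((2 ^ L.n : ℕ) : ℝ) := by
    rw [← L.hs]
    calc ∑ i ∈ range (2 ^ L.n), sg (L.t i) ≤ ∑ _i ∈ range (2 ^ L.n), (1 : ℝ) :=
          sum_le_sum fun _ _ => sg_le_one _
      _ = _ := by simp
  exact_mod_cast h

lemma Lev.eps_pos (L : Lev) : 0 < L.eps := by
  unfold Lev.eps
  have : (0 : ℝ) < L.s := by exact_mod_cast L.spos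
  positivity

lemma Lev.F_nonneg (L : Lev) : 0 ≤ L.F := by
  have h := L.hF 0
  have h0 : 0 ≤ ∑ w ∈ range (2 ^ L.n), wi (L.t w) * SS L.t (w + 1) 1 0 :=
    sum_nonneg fun _ _ => mul_nonneg (wi_nonneg _) (SS_nonneg _ _ _ _)
  have h1 : 0 ≤ L.F * 2 ^ L.n := h0.trans h
  by_contra hneg
  push Not at hneg
  have : L.F * 2 ^ L.n < 0 := mul_neg_of_neg_of_pos hneg (by positivity)
  linarith

theorem Lev.step (L : Lev) (η : ℝ) (hη : 0 < η) : ∃ L' : Lev, L.n < L'.n ∧ L'.F = L.F + η ∧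
    L'.eps ≤ 7 / 8 * L.eps ∧ L'.dw = (1 - L.eps / 4) * L.dw ∧
    ∃ x : ℕ, x ≤ 2 ^ L'.n ∧ (x : ℝ) / 2 ^ L'.n = L.eps / 4 ∧
      ∀ i, i < 2 ^ L'.n - x → L'.t i = L.t i := by
  obtain ⟨n, t, s, F, hper, spos, hs, hF⟩ := L
  have hsN := Lev.s_le ⟨n, t, s, F, hper, spos, hs, hF⟩
  have hF0 := Lev.F_nonneg ⟨n, t, s, F, hper, spos, hs, hF⟩
  simp only at hsN hF0
  simp only [Lev.eps, Lev.dw]
  set N := 2 ^ n with hN
  have hNpos : 0 < N := by positivity
  have hNr : (0 : ℝ) < (N : ℝ) := by exact_mod_cast hNpos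
  have hNcast : (2 : ℝ) ^ n = (N : ℝ) := by rw [hN]; push_cast; ring
  rw [hNcast] at hF
  rw [hNcast]
  have hsr : (0 : ℝ) < (s : ℝ) := by exact_mod_cast spos
  have hsNr : (s : ℝ) ≤ N := by exact_mod_cast hsN
  set ε : ℝ := (s : ℝ) / N with hε
  have hε0 : 0 < ε := div_pos hsr hNr
  obtain ⟨y, hy⟩ := exists_y t N (F * N) hF (η * ε / 12) (by positivity)
  obtain ⟨r, hr⟩ : ∃ r : ℕ, 4 * y + 1 ≤ 2 ^ r :=
    ⟨4 * y + 1, (Nat.lt_two_pow_self).le⟩
  set R := 2 ^ r with hR
  set J := R * (4 * N - s) with hJ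
  set x := R * s * N with hx
  have hyx : y ≤ x := by
    have : R * 1 * 1 ≤ R * s * N := Nat.mul_le_mul (Nat.mul_le_mul_left _ spos) hNpos
    omega
  obtain ⟨z, hz⟩ : ∃ z, x = y + z := ⟨x - y, by omega⟩
  set N' := J * N + y + z with hN'
  have hRpos : 0 < R := by omega
  have hJc : (J : ℝ) = R * (4 * N - s) := by
    rw [hJ]; push_cast [Nat.cast_sub (show s ≤ 4 * N by omega)]; ring
  have hxc : (x : ℝ) = R * s * N := by rw [hx]; push_cast; ring
  have hzc : (z : ℝ) = R * s * N - y := by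
    have : (x : ℝ) = y + z := by rw [hz]; push_cast; ring
    linarith
  have hRr : (0 : ℝ) < R := by exact_mod_cast hRpos
  have hN'c : (N' : ℝ) = 4 * R * N * N := by
    rw [hN']; push_cast; rw [hJc, hzc]; ring
  have hN'pow : N' = 2 ^ (2 * n + 2 + r) := by
    have h1 : (N' : ℝ) = ((2 ^ (2 * n + 2 + r) : ℕ) : ℝ) := by
      rw [hN'c, hN, hR]; push_cast; ring
    exact_mod_cast h1
  have hN'pos : 0 < N' := by rw [hN'pow]; positivity
  have hN'r : (0 : ℝ) < (N' : ℝ) := by exact_mod_cast hN'pos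
  have hN'cast : (2 : ℝ) ^ (2 * n + 2 + r) = (N' : ℝ) := by rw [hN'pow]; push_cast; ring
  set t' := newt t N' (J * N) y with ht'
  have hper' : ∀ i, t' (i + N') = t' i := newt_per t N' (J * N) y
  -- the new excess
  set s' := R * s * (3 * N - s) + 2 * y with hs'
  have hs'c : (s' : ℝ) = R * s * (3 * N - s) + 2 * y := by
    rw [hs']; push_cast [Nat.cast_sub (show s ≤ 3 * N by omega)]; ring
  have hs'pos : 0 < s' := by
    have : 0 < R * s * (3 * N - s) := by
      refine Nat.mul_pos (Nat.mul_pos hRpos spos) ?_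
      omega
    omega
  have hs'sum : ∑ i ∈ range N', sg (t' i) = s' := by
    rw [ht', hN', sum_newt t (J * N) y z sg,
      sum_periodic (fun i => sg (t i)) N (fun i => by rw [hper]) J, hs, hs'c, hJc, hzc]
    simp only [sg]
    ring
  have hyR : (4 : ℝ) * y + 1 ≤ R := by
    have : ((4 * y + 1 : ℕ) : ℝ) ≤ ((R : ℕ) : ℝ) := by exact_mod_cast hr
    push_cast at this
    exact this
  have hy0 : (0 : ℝ) ≤ y := by positivity
  have hε'lo : ε / 2 ≤ (s' : ℝ) / N' := by
    rw [hs'c, hN'c, hε, div_div, div_le_div_iff₀ (by positivity) (by positivity)]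
    have h1 : (s : ℝ) * (4 * R * N * N) ≤ R * s * (2 * N) * (N * 2) := le_of_eq (by ring)
    have h2 : R * s * (2 * N) * (N * 2) ≤ (R * s * (3 * N - s) + 2 * y) * ((N : ℝ) * 2) := by
      refine mul_le_mul_of_nonneg_right ?_ (by positivity)
      have : R * (s : ℝ) * (2 * N) ≤ R * s * (3 * N - s) :=
        mul_le_mul_of_nonneg_left (by linarith) (by positivity)
      linarith
    exact h1.trans h2
  have hε'hi : (s' : ℝ) / N' ≤ 7 / 8 * ε := by
    rw [hs'c, hN'c, hε, div_le_iff₀ (by positivity)]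
    have e1 : 7 / 8 * ((s : ℝ) / N) * (4 * R * N * N) = 7 / 2 * R * s * N := by
      field_simp; ring
    rw [e1]
    have hs1 : (1 : ℝ) ≤ s := by exact_mod_cast spos
    have hN1 : (1 : ℝ) ≤ N := by exact_mod_cast hNpos
    have h1 : R * (s : ℝ) * (3 * N - s) ≤ 3 * R * s * N := by
      have h3 : 0 ≤ R * (s : ℝ) * s := by positivity
      have h4 : 3 * R * s * N - R * (s : ℝ) * (3 * N - s) = R * (s : ℝ) * s := by ring
      linarith
    have h2 : (R : ℝ) ≤ R * s * N := by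
      calc (R : ℝ) = R * 1 * 1 := by ring
        _ ≤ R * s * N := by gcongr
    have h3 : 2 * (y : ℝ) ≤ 1 / 2 * R := by linarith
    linarith
  -- the main estimate
  have hBnd : ∀ a, a ≤ J * N + y + z → ∀ M, SS t' (J * N + y) a M ≤ 12 * N' / ε := by
    intro a ha M
    have h1 := SS_le_per t' N' hN'pos hper' (by rw [hs'sum]; exact_mod_cast hs'pos) M (J * N + y) a
    rw [hs'sum] at h1
    refine h1.trans ?_
    have ha' : (a : ℝ) ≤ N' := by exact_mod_cast ha
    have hN'1 : (1 : ℝ) ≤ N' := by exact_mod_cast hN'pos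
    have h2 : ((a : ℝ) + 1 + 4 * N') / ((s' : ℝ) / N') ≤ (6 * N') / (ε / 2) := by
      refine div_le_div₀ (by positivity) (by linarith) (by positivity) hε'lo
    refine h2.trans (le_of_eq ?_)
    field_simp; ring
  have hmain : ∀ M, ∑ w ∈ range N', wi (t' w) * SS t' (w + 1) 1 M ≤ (F + η) * N' := by
    intro M
    have h1 := newt_est t N J y z hNpos hper (F * N) (12 * N' / ε) (η * ε / 12) hF
      (by positivity) hBnd hy M
    refine h1.trans ?_
    have h2 : η * ε / 12 * (12 * N' / ε) = η * N' := by field_simp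
    rw [h2]
    have h3 : (J : ℝ) * (F * N) ≤ F * N' := by
      rw [hJc, hN'c]
      have h4 : 0 ≤ F * (R * s * N) := by positivity
      have h5 : F * (4 * (R : ℝ) * N * N) - R * (4 * N - s) * (F * N) = F * (R * s * N) := by ring
      linarith
    linarith
  refine ⟨⟨2 * n + 2 + r, t', s', F + η, ?_, hs'pos, ?_, ?_⟩, ?_, rfl, ?_, ?_, x, ?_, ?_, ?_⟩
  · rw [← hN'pow]; exact hper'
  · rw [← hN'pow]; exact hs'sum
  · rw [← hN'pow, hN'cast]; exact hmain
  · show n < 2 * n + 2 + r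
    omega
  · show (s' : ℝ) / 2 ^ (2 * n + 2 + r) ≤ 7 / 8 * ε
    rw [hN'cast]; exact hε'hi
  · show (∑ i ∈ range (2 ^ (2 * n + 2 + r)), wi (t' i)) / 2 ^ (2 * n + 2 + r) = _
    rw [← hN'pow, hN'cast, ht', hN', sum_newt t (J * N) y z wi,
      sum_periodic (fun i => wi (t i)) N (fun i => by rw [hper]) J, ← hN', hJc, hN'c, hε]
    have e1 : wi Ty.P = 0 := by simp [wi]
    have e2 : wi Ty.N = 0 := by simp [wi]
    rw [e1, e2]
    field_simp
    ring
  · show x ≤ 2 ^ (2 * n + 2 + r)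
    rw [← hN'pow]; omega
  · show (x : ℝ) / 2 ^ (2 * n + 2 + r) = ε / 4
    rw [hN'cast, hxc, hN'c, hε]
    field_simp
  · intro i hi
    show t' i = t i
    have hi' : i < 2 ^ (2 * n + 2 + r) - x := hi
    rw [← hN'pow] at hi'
    exact newt_lt t N' (J * N) y i (by omega) (by omega)

/-- Initial pattern. -/
def t0 : ℕ → Ty := fun i => if i % 64 = 0 then Ty.W else if i % 64 < 39 then Ty.P else Ty.N

lemma t0_sum (f : Ty → ℝ) : ∑ i ∈ range (2 ^ 6), f (t0 i) = f Ty.W + 38 * f Ty.P + 25 * f Ty.N := by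
  have h : (2 ^ 6 : ℕ) = 1 + 38 + 25 := by norm_num
  rw [h, sum_range_add, sum_range_add]
  congr 1
  · congr 1
    · simp [t0]
    · rw [sum_congr rfl (g := fun _ => f Ty.P)]
      · simp
      · intro i hi
        have := mem_range.mp hi
        have e : t0 (1 + i) = Ty.P := by
          unfold t0
          rw [Nat.mod_eq_of_lt (by omega), if_neg (by omega), if_pos (by omega)]
        rw [e]
  · rw [sum_congr rfl (g := fun _ => f Ty.N)]
    · simp
    · intro i hi
      have := mem_range.mp hi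
      have e : t0 (1 + 38 + i) = Ty.N := by
        unfold t0
        rw [Nat.mod_eq_of_lt (by omega), if_neg (by omega), if_neg (by omega)]
      rw [e]

lemma t0_per (x : ℕ) : t0 (x + 2 ^ 6) = t0 x := by
  unfold t0
  have : (x + 2 ^ 6) % 64 = x % 64 := by omega
  rw [this]

lemma t0_F (M : ℕ) : ∑ w ∈ range (2 ^ 6), wi (t0 w) * SS t0 (w + 1) 1 M ≤ (3 / 4 : ℝ) * 2 ^ 6 := by
  have h1 : ∑ w ∈ range (2 ^ 6), wi (t0 w) * SS t0 (w + 1) 1 M = SS t0 1 1 M := by
    rw [sum_eq_single_of_mem 0 (by simp)]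
    · simp [wi, t0]
    · intro b hb hb0
      have hb' : b < 64 := by simpa using hb
      have : wi (t0 b) = 0 := by
        unfold wi
        rw [if_neg]
        unfold t0
        rw [Nat.mod_eq_of_lt hb', if_neg hb0]
        split_ifs <;> simp
      rw [this, zero_mul]
  rw [h1]
  have hsum : ∑ i ∈ range (2 ^ 6), sg (t0 i) = 12 := by
    rw [t0_sum]; simp only [sg]; norm_num
  have h2 := SS_split t0 1 1 38 M
  have h3 := SS_le_card t0 1 1 38
  have h4 : sv t0 1 1 38 = qf 38 0 := by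
    have := sv_Prun t0 1 0 38 (fun i hi => by
      unfold t0
      rw [Nat.mod_eq_of_lt (by omega), if_neg (by omega), if_pos (by omega)])
    simpa using this
  have h5 := SS_le_per t0 (2 ^ 6) (by norm_num) t0_per (by rw [hsum]; norm_num) M 39 39
  rw [hsum] at h5
  have h6 : qf 38 0 = 2 / (39 * 40) := by unfold qf; norm_num
  rw [h4, h6] at h2
  norm_num at h2 h3 h5 ⊢
  linarith

/-- The initial level. -/
noncomputable def L0 : Lev where
  n := 6
  t := t0
  s := 12
  F := 3 / 4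
  per := t0_per
  spos := by norm_num
  hs := by rw [t0_sum]; simp only [sg]; norm_num
  hF := t0_F

end Pool.Agent.ERW
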