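import Pool.Agent.Lib.MP_05ceff_pr.Level

set_option autoImplicit false

namespace Pool.Agent.ERW

open Finset MeasureTheory

instance fact2 : Fact (Nat.Prime 2) := ⟨Nat.prime_two⟩

/-- The 2-adic integers. -/
abbrev E2 : Type := ℤ_[2]

noncomputable instance instMS : MeasurableSpace E2 := borel E2
instance instBS : BorelSpace E2 := ⟨rfl⟩

/-- Normalised Haar measure. -/
noncomputable def nu : Measure E2 := Measure.addHaarMeasure ⊤

instance instHaar : Measure.IsAddHaarMeasure nu := by unfold nu; infer_instance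

instance instProb : IsProbabilityMeasure nu := by
  constructor
  unfold nu
  have := Measure.addHaarMeasure_self (K₀ := (⊤ : TopologicalSpace.PositiveCompacts E2))
  simpa using this

lemma dense_neg_one : DenseRange (fun n : ℤ => n • (-1 : E2)) := by
  have h := PadicInt.denseRange_intCast (p := 2)
  have h2 : (fun n : ℤ => n • (-1 : E2)) = (fun n : ℤ => (n : E2)) ∘ (fun n : ℤ => -n) := by
    funext n
    simp
  rw [h2]
  exact h.comp (neg_surjective.denseRange) continuous_of_discreteTopology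

lemma ergodic_neg_one : Ergodic (fun θ : E2 => (-1 : E2) + θ) nu :=
  ergodic_add_left_of_denseRange_zsmul dense_neg_one nu

/-- Residue modulo `2^k`. -/
noncomputable def rs (k : ℕ) (θ : E2) : ℕ := (PadicInt.toZModPow k θ).val

lemma rs_lt (k : ℕ) (θ : E2) : rs k θ < 2 ^ k := by
  unfold rs
  have : NeZero (2 ^ k) := ⟨by positivity⟩
  exact ZMod.val_lt _

lemma rs_add (k : ℕ) (θ : E2) (j : ℕ) : rs k (θ + j) = (rs k θ + j) % 2 ^ k := by
  unfold rs
  have : NeZero (2 ^ k) := ⟨by positivity⟩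
  rw [map_add, map_natCast, ZMod.val_add, ZMod.val_natCast, Nat.add_mod_mod]

lemma rs_mod (m n : ℕ) (h : m ≤ n) (θ : E2) : rs n θ % 2 ^ m = rs m θ := by
  unfold rs
  have : NeZero (2 ^ m) := ⟨by positivity⟩
  have : NeZero (2 ^ n) := ⟨by positivity⟩
  have h1 := PadicInt.cast_toZModPow m n h θ
  rw [← h1, ZMod.cast_eq_val, ZMod.val_natCast]

lemma measurable_rs (k : ℕ) : Measurable (rs k) := by
  refine measurable_to_countable' fun a => ?_
  refine IsOpen.measurableSet ?_
  rw [Metric.isOpen_iff]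
  intro θ hθ
  refine ⟨(2 : ℝ) ^ (-(k : ℤ)), by positivity, ?_⟩
  intro θ' hθ'
  simp only [Set.mem_preimage, Set.mem_singleton_iff] at hθ ⊢
  rw [← hθ]
  unfold rs
  congr 1
  rw [← sub_eq_zero, ← map_sub, ← RingHom.mem_ker, PadicInt.ker_toZModPow]
  rw [← PadicInt.norm_le_pow_iff_mem_span_pow]
  rw [Metric.mem_ball, dist_eq_norm] at hθ'
  exact_mod_cast hθ'.le

lemma integrable_rs (k : ℕ) (g : ℕ → ℝ) : Integrable (fun θ => g (rs k θ)) nu := by
  refine Integrable.of_bound (C := ∑ x ∈ range (2 ^ k), |g x|) ?_ ?_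
  · exact ((measurable_of_countable g).comp (measurable_rs k)).aestronglyMeasurable
  · refine Filter.Eventually.of_forall fun θ => ?_
    rw [Real.norm_eq_abs]
    exact single_le_sum (f := fun x => |g x|) (fun _ _ => abs_nonneg _)
      (mem_range.mpr (rs_lt k θ))

lemma integral_rs (k : ℕ) (g : ℕ → ℝ) :
    ∫ θ, g (rs k θ) ∂nu = (∑ x ∈ range (2 ^ k), g x) / 2 ^ k := by
  have h1 : ∀ j : ℕ, ∫ θ, g ((rs k θ + j) % 2 ^ k) ∂nu = ∫ θ, g (rs k θ) ∂nu := by
    intro j
    have := integral_add_right_eq_self (μ := nu) (fun θ => g (rs k θ)) (j : E2)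
    rw [← this]
    refine integral_congr_ae (Filter.Eventually.of_forall fun θ => ?_)
    simp only
    rw [rs_add]
  have h2 : ∑ j ∈ range (2 ^ k), ∫ θ, g ((rs k θ + j) % 2 ^ k) ∂nu =
      ∑ x ∈ range (2 ^ k), g x := by
    rw [← integral_finsetSum]
    · have h3 : ∀ θ, ∑ j ∈ range (2 ^ k), g ((rs k θ + j) % 2 ^ k) = ∑ x ∈ range (2 ^ k), g x := by
        intro θ
        have e1 := sum_window (fun i => g (i % 2 ^ k)) (2 ^ k)
          (fun i => by simp) (rs k θ)
        have e2 : ∑ i ∈ range (rs k θ + 2 ^ k), g (i % 2 ^ k) =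
            ∑ i ∈ range (rs k θ), g (i % 2 ^ k) +
            ∑ j ∈ range (2 ^ k), g ((rs k θ + j) % 2 ^ k) := by rw [sum_range_add]
        rw [e2] at e1
        have e3 := add_left_cancel e1
        rw [e3]
        refine sum_congr rfl fun i hi => ?_
        rw [Nat.mod_eq_of_lt (mem_range.mp hi)]
      simp only [h3]
      simp
    · intro j _
      exact integrable_rs k (fun x => g ((x + j) % 2 ^ k))
  simp only [h1] at h2
  rw [sum_const, card_range, nsmul_eq_mul] at h2
  rw [← h2]
  push_cast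
  field_simp

end Pool.Agent.ERW
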