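import Pool.Agent.Lib.MP_05ceff_pr.Surv

set_option autoImplicit false

namespace Pool.Agent.ERW

open Finset

/-- Damping factor due to a run of `y` sites of type `P`. -/
noncomputable def qf (y l : ℕ) : ℝ :=
  (((l : ℝ) + 1) * (l + 2)) / (((l : ℝ) + y + 1) * (l + y + 2))

lemma qf_nonneg (y l : ℕ) : 0 ≤ qf y l := by unfold qf; positivity

lemma qf_le_one (y l : ℕ) : qf y l ≤ 1 := by
  unfold qf
  rw [div_le_one (by positivity)]
  have : (0 : ℝ) ≤ (y : ℝ) := by positivity
  have : (0 : ℝ) ≤ (l : ℝ) := by positivity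
  nlinarith

lemma sv_Prun (t : ℕ → Ty) (x l y : ℕ) (h : ∀ i, i < y → t (x + i) = Ty.P) :
    sv t x (1 + l) y = qf y l := by
  induction y with
  | zero =>
    rw [sv_zero]; unfold qf
    have : ((l : ℝ) + 1) * (l + 2) ≠ 0 := by positivity
    simp only [CharP.cast_eq_zero, add_zero]
    rw [div_self this]
  | succ y ih =>
    have ih' := ih (fun i hi => h i (by omega))
    have h1 : sv t x (1 + l) (y + 1) = sv t x (1 + l) y * rf (1 + l + y) (t (x + y)) := by
      unfold sv; rw [prod_range_succ]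
    rw [h1, ih', h y (by omega)]
    simp only [rf, qf]
    push_cast
    have p1 : (l : ℝ) + y + 1 ≠ 0 := by positivity
    have p2 : (l : ℝ) + y + 2 ≠ 0 := by positivity
    have p3 : (l : ℝ) + (y + 1) + 1 ≠ 0 := by positivity
    have p4 : (l : ℝ) + (y + 1) + 2 ≠ 0 := by positivity
    have p5 : 1 + (l : ℝ) + y + 2 ≠ 0 := by positivity
    field_simp
    ring

lemma rf_P_le (a : ℕ) (t : Ty) : rf a Ty.P ≤ rf a t := by
  cases t
  · exact le_refl _
  · exact rf_le_one a Ty.P
  · exact rf_le_one a Ty.P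

lemma sv_le_sv (t t' : ℕ → Ty) (x a n : ℕ)
    (h : ∀ i, i < n → t' (x + i) = t (x + i) ∨ t' (x + i) = Ty.P) :
    sv t' x a n ≤ sv t x a n := by
  unfold sv
  refine prod_le_prod (fun _ _ => rf_nonneg _ _) (fun i hi => ?_)
  rcases h i (mem_range.mp hi) with h1 | h1
  · rw [h1]
  · rw [h1]; exact rf_P_le _ _

lemma SS_compare (t t' : ℕ → Ty) (x a L M : ℕ) (B : ℝ)
    (h : ∀ i, i < L → t' (x + i) = t (x + i) ∨ t' (x + i) = Ty.P)
    (hB : ∀ M, SS t' (x + L) (a + L) M ≤ B) :
    SS t' x a M ≤ SS t x a M + sv t' x a L * B := by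
  have hB0 : 0 ≤ B := (SS_nonneg _ _ _ _).trans (hB 0)
  have hcmp : ∀ M, M ≤ L → SS t' x a M ≤ SS t x a M := by
    intro M hM
    unfold SS
    refine sum_le_sum fun n hn => sv_le_sv t t' x a n fun i hi => h i ?_
    have := mem_range.mp hn
    omega
  rcases Nat.le_total M L with hM | hM
  · have := hcmp M hM
    have h2 := mul_nonneg (sv_nonneg t' x a L) hB0
    linarith
  · have h1 := SS_split t' x a L M
    have h2 := hcmp L (le_refl _)
    have h3 := SS_mono t x a hM
    have h4 := mul_le_mul_of_nonneg_left (hB M) (sv_nonneg t' x a L)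
    linarith

/-- Total survival at distance `l` of excursions started in one period. -/
noncomputable def DD (t : ℕ → Ty) (N l : ℕ) : ℝ :=
  ∑ w ∈ range N, wi (t w) * sv t (w + 1) 1 l

lemma DD_nonneg (t : ℕ → Ty) (N l : ℕ) : 0 ≤ DD t N l :=
  sum_nonneg fun _ _ => mul_nonneg (wi_nonneg _) (sv_nonneg _ _ _ _)

lemma DD_sum (t : ℕ → Ty) (N M : ℕ) :
    ∑ l ∈ range M, DD t N l = ∑ w ∈ range N, wi (t w) * SS t (w + 1) 1 M := by
  unfold DD SS
  rw [sum_comm]
  refine sum_congr rfl fun w _ => ?_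
  rw [mul_sum]

lemma exists_y (t : ℕ → Ty) (N : ℕ) (C : ℝ)
    (hC : ∀ M, ∑ w ∈ range N, wi (t w) * SS t (w + 1) 1 M ≤ C) (δ : ℝ) (hδ : 0 < δ) :
    ∃ y : ℕ, ∀ M, ∑ l ∈ range M, DD t N l * qf y l ≤ δ := by
  have hsum : Summable (DD t N) :=
    summable_of_sum_range_le (DD_nonneg t N) (fun M => by rw [DD_sum]; exact hC M)
  have hlim : Filter.Tendsto (fun y : ℕ => ∑' l, DD t N l * qf y l) Filter.atTop
      (nhds (∑' l : ℕ, (0 : ℝ))) := by
    refine tendsto_tsum_of_dominated_convergence (bound := DD t N) hsum ?_ ?_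
    · intro l
      have h1 : Filter.Tendsto (fun y : ℕ => qf y l) Filter.atTop (nhds 0) := by
        have h2 : Filter.Tendsto (fun y : ℕ => (((l : ℝ) + 1) * (l + 2)) / (y : ℝ)) Filter.atTop
            (nhds 0) := tendsto_const_div_atTop_nhds_zero_nat _
        refine squeeze_zero' (Filter.Eventually.of_forall fun y => qf_nonneg y l) ?_ h2
        filter_upwards [Filter.eventually_ge_atTop 1] with y hy
        unfold qf
        have hy' : (1 : ℝ) ≤ y := by exact_mod_cast hy
        have hl : (0 : ℝ) ≤ (l : ℝ) := by positivity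
        refine div_le_div_of_nonneg_left (by positivity) (by linarith) ?_
        nlinarith
      have h3 := h1.const_mul (DD t N l)
      rwa [mul_zero] at h3
    · refine Filter.Eventually.of_forall fun y l => ?_
      rw [Real.norm_eq_abs, abs_mul, abs_of_nonneg (DD_nonneg t N l), abs_of_nonneg (qf_nonneg y l)]
      have := DD_nonneg t N l
      nlinarith [qf_le_one y l]
  rw [tsum_zero] at hlim
  obtain ⟨y, hy⟩ := (hlim.eventually (gt_mem_nhds hδ)).exists
  refine ⟨y, fun M => ?_⟩
  have hs2 : Summable (fun l => DD t N l * qf y l) := by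
    refine Summable.of_nonneg_of_le (fun l => mul_nonneg (DD_nonneg t N l) (qf_nonneg y l))
      (fun l => ?_) hsum
    have := DD_nonneg t N l
    nlinarith [qf_le_one y l]
  exact (hs2.sum_le_tsum _ (fun l _ => mul_nonneg (DD_nonneg t N l) (qf_nonneg y l))).trans hy.le

/-- Periodicity of `sv` and `SS`. -/
lemma per_mul (t : ℕ → Ty) (N : ℕ) (hper : ∀ x, t (x + N) = t x) (q x : ℕ) :
    t (x + q * N) = t x := by
  induction q with
  | zero => simp
  | succ q ih => rw [Nat.succ_mul, ← add_assoc, hper, ih]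

lemma sv_per (t : ℕ → Ty) (N : ℕ) (hper : ∀ x, t (x + N) = t x) (q x a n : ℕ) :
    sv t (x + q * N) a n = sv t x a n := by
  unfold sv
  refine prod_congr rfl fun i _ => ?_
  have : x + q * N + i = x + i + q * N := by ring
  rw [this, per_mul t N hper]

lemma SS_per (t : ℕ → Ty) (N : ℕ) (hper : ∀ x, t (x + N) = t x) (q x a M : ℕ) :
    SS t (x + q * N) a M = SS t x a M := by
  unfold SS
  exact sum_congr rfl fun n _ => sv_per t N hper q x a n

/-- A single term is at most `DD`. -/
lemma term_le_DD (t : ℕ → Ty) (N : ℕ) (hN : 0 < N) (hper : ∀ x, t (x + N) = t x) (w l : ℕ) :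
    wi (t w) * sv t (w + 1) 1 l ≤ DD t N l := by
  have h1 : w = w % N + (w / N) * N := by rw [mul_comm, Nat.mod_add_div]
  have h2 : t w = t (w % N) := by
    conv_lhs => rw [h1]
    exact per_mul t N hper _ _
  have h3 : sv t (w + 1) 1 l = sv t (w % N + 1) 1 l := by
    have : w + 1 = w % N + 1 + (w / N) * N := by omega
    rw [this]
    exact sv_per t N hper _ _ _ _
  rw [h2, h3]
  unfold DD
  exact single_le_sum (f := fun w => wi (t w) * sv t (w + 1) 1 l)
    (fun _ _ => mul_nonneg (wi_nonneg _) (sv_nonneg _ _ _ _)) (mem_range.mpr (Nat.mod_lt w hN))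

/-- The new pattern. -/
def newt (t : ℕ → Ty) (N' JN y : ℕ) : ℕ → Ty := fun i =>
  if i % N' < JN then t (i % N') else if i % N' < JN + y then Ty.P else Ty.N

lemma newt_per (t : ℕ → Ty) (N' JN y : ℕ) (x : ℕ) : newt t N' JN y (x + N') = newt t N' JN y x := by
  unfold newt
  rw [Nat.add_mod_right]

lemma newt_lt (t : ℕ → Ty) (N' JN y : ℕ) (i : ℕ) (h1 : i < JN) (h2 : JN ≤ N') :
    newt t N' JN y i = t i := by
  unfold newt
  rw [Nat.mod_eq_of_lt (by omega), if_pos h1]

lemma newt_P (t : ℕ → Ty) (N' JN y : ℕ) (i : ℕ) (h0 : JN ≤ i) (h1 : i < JN + y)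
    (h2 : i < N') : newt t N' JN y i = Ty.P := by
  unfold newt
  rw [Nat.mod_eq_of_lt h2, if_neg (by omega), if_pos h1]

lemma newt_N (t : ℕ → Ty) (N' JN y : ℕ) (i : ℕ) (h1 : JN + y ≤ i)
    (h2 : i < N') : newt t N' JN y i = Ty.N := by
  unfold newt
  rw [Nat.mod_eq_of_lt h2, if_neg (by omega), if_neg (by omega)]

lemma sum_newt (t : ℕ → Ty) (JN y z : ℕ) (f : Ty → ℝ) :
    ∑ i ∈ range (JN + y + z), f (newt t (JN + y + z) JN y i) =
      ∑ i ∈ range JN, f (t i) + y * f Ty.P + z * f Ty.N := by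
  rw [sum_range_add, sum_range_add]
  congr 1
  · congr 1
    · refine sum_congr rfl fun i hi => ?_
      rw [newt_lt t _ _ _ _ (mem_range.mp hi) (by omega)]
    · rw [sum_congr rfl (g := fun _ => f Ty.P)]
      · simp
      · intro i hi
        have := mem_range.mp hi
        rw [newt_P t _ _ _ _ (by omega) (by omega) (by omega)]
  · rw [sum_congr rfl (g := fun _ => f Ty.N)]
    · simp
    · intro i hi
      have := mem_range.mp hi
      rw [newt_N t _ _ _ _ (by omega) (by omega)]

/-- Key estimate for the new pattern. -/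
lemma newt_est (t : ℕ → Ty) (N J y z : ℕ) (hN : 0 < N) (hper : ∀ x, t (x + N) = t x)
    (F B δ : ℝ) (hF : ∀ M, ∑ w ∈ range N, wi (t w) * SS t (w + 1) 1 M ≤ F)
    (hB0 : 0 ≤ B)
    (hB : ∀ a, a ≤ J * N + y + z → ∀ M,
      SS (newt t (J * N + y + z) (J * N) y) (J * N + y) a M ≤ B)
    (hy : ∀ M, ∑ l ∈ range M, DD t N l * qf y l ≤ δ) (M : ℕ) :
    ∑ w ∈ range (J * N + y + z), wi (newt t (J * N + y + z) (J * N) y w) *
      SS (newt t (J * N + y + z) (J * N) y) (w + 1) 1 M ≤ J * F + δ * B := by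
  set N' := J * N + y + z with hN'
  set t' := newt t N' (J * N) y with ht'
  -- only the sites below J*N matter
  have h1 : ∑ w ∈ range N', wi (t' w) * SS t' (w + 1) 1 M =
      ∑ w ∈ range (J * N), wi (t w) * SS t' (w + 1) 1 M := by
    rw [hN', add_assoc, sum_range_add]
    have hz : ∑ x ∈ range (y + z), wi (t' (J * N + x)) * SS t' (J * N + x + 1) 1 M = 0 := by
      refine sum_eq_zero fun i hi => ?_
      have hi' := mem_range.mp hi
      have : wi (t' (J * N + i)) = 0 := by
        rcases Nat.lt_or_ge i y with h | h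
        · rw [ht', newt_P t _ _ _ _ (by omega) (by omega) (by omega)]; simp [wi]
        · rw [ht', newt_N t _ _ _ _ (by omega) (by omega)]; simp [wi]
      rw [this, zero_mul]
    rw [hz, add_zero]
    refine sum_congr rfl fun i hi => ?_
    have hi' := mem_range.mp hi
    rw [ht', newt_lt t _ _ _ _ hi' (by omega)]
  rw [h1]
  -- compare each term
  have h2 : ∀ w ∈ range (J * N), wi (t w) * SS t' (w + 1) 1 M ≤
      wi (t w) * SS t (w + 1) 1 M + DD t N (J * N - 1 - w) * qf y (J * N - 1 - w) * B := by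
    intro w hw
    have hw' := mem_range.mp hw
    set l := J * N - 1 - w with hl
    have hcmp := SS_compare t t' (w + 1) 1 (l + y) M B ?_ ?_
    · have hsv : sv t' (w + 1) 1 (l + y) = sv t (w + 1) 1 l * qf y l := by
        rw [sv_add]
        congr 1
        · unfold sv
          refine prod_congr rfl fun i hi => ?_
          have := mem_range.mp hi
          rw [ht', newt_lt t _ _ _ _ (by omega) (by omega)]
        · refine sv_Prun t' _ l y fun i hi => ?_
          rw [ht', newt_P t _ _ _ _ (by omega) (by omega) (by omega)]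
      rw [hsv] at hcmp
      have h3 := mul_le_mul_of_nonneg_left hcmp (wi_nonneg (t w))
      have h4 := term_le_DD t N hN hper w l
      have h5 : wi (t w) * (sv t (w + 1) 1 l * qf y l * B) ≤ DD t N l * qf y l * B := by
        calc wi (t w) * (sv t (w + 1) 1 l * qf y l * B) =
            (wi (t w) * sv t (w + 1) 1 l) * (qf y l * B) := by ring
          _ ≤ DD t N l * (qf y l * B) :=
            mul_le_mul_of_nonneg_right h4 (mul_nonneg (qf_nonneg _ _) hB0)
          _ = _ := by ring
      linarith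
    · intro i hi
      rcases Nat.lt_or_ge (w + 1 + i) (J * N) with h | h
      · left; rw [ht', newt_lt t _ _ _ _ h (by omega)]
      · right; rw [ht', newt_P t _ _ _ _ h (by omega) (by omega)]
    · intro M'
      have e1 : w + 1 + (l + y) = J * N + y := by omega
      rw [e1]
      exact hB _ (by omega) M'
  refine (sum_le_sum h2).trans ?_
  rw [sum_add_distrib]
  refine add_le_add ?_ ?_
  · have hg : ∀ i, wi (t (i + N)) * SS t (i + N + 1) 1 M = wi (t i) * SS t (i + 1) 1 M := by
      intro i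
      rw [hper]
      have := SS_per t N hper 1 (i + 1) 1 M
      rw [one_mul] at this
      have e : i + N + 1 = i + 1 + N := by ring
      rw [e, this]
    rw [sum_periodic (fun w => wi (t w) * SS t (w + 1) 1 M) N hg J]
    exact mul_le_mul_of_nonneg_left (hF M) (by positivity)
  · rw [← sum_mul]
    refine mul_le_mul_of_nonneg_right ?_ hB0
    have h6 : ∑ i ∈ range (J * N), DD t N (J * N - 1 - i) * qf y (J * N - 1 - i) =
        ∑ i ∈ range (J * N), DD t N i * qf y i :=
      sum_range_reflect (fun i => DD t N i * qf y i) (J * N)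
    rw [h6]
    exact hy _

end Pool.Agent.ERW
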