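import Pool.Agent.Lib.MP_05ceff_pr.Fresh

set_option autoImplicit false

namespace Pool.Agent.ERW

open Finset

/-- Sign of a type: drift minus one. -/
noncomputable def sg : Ty → ℝ
  | Ty.P => 1
  | Ty.N => -1
  | Ty.W => -1

/-- Indicator of the type `W`. -/
noncomputable def wi (t : Ty) : ℝ := if t = Ty.W then 1 else 0

lemma wi_nonneg (t : Ty) : 0 ≤ wi t := by unfold wi; split_ifs <;> norm_num
lemma wi_le_one (t : Ty) : wi t ≤ 1 := by unfold wi; split_ifs <;> norm_num

lemma sg_le_one (t : Ty) : sg t ≤ 1 := by cases t <;> simp only [sg] <;> norm_num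
lemma neg_one_le_sg (t : Ty) : -1 ≤ sg t := by cases t <;> simp only [sg] <;> norm_num

/-- Survival over `n` sites, from position `x` with age `a`. -/
noncomputable def sv (t : ℕ → Ty) (x a n : ℕ) : ℝ := ∏ i ∈ range n, rf (a + i) (t (x + i))

/-- Partial sums of the survival products. -/
noncomputable def SS (t : ℕ → Ty) (x a M : ℕ) : ℝ := ∑ n ∈ range M, sv t x a n

lemma sv_zero (t : ℕ → Ty) (x a : ℕ) : sv t x a 0 = 1 := by simp [sv]

lemma sv_nonneg (t : ℕ → Ty) (x a n : ℕ) : 0 ≤ sv t x a n :=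
  prod_nonneg fun _ _ => rf_nonneg _ _

lemma sv_le_one (t : ℕ → Ty) (x a n : ℕ) : sv t x a n ≤ 1 :=
  prod_le_one (fun _ _ => rf_nonneg _ _) (fun _ _ => rf_le_one _ _)

lemma sv_succ (t : ℕ → Ty) (x a n : ℕ) :
    sv t x a (n + 1) = rf a (t x) * sv t (x + 1) (a + 1) n := by
  unfold sv
  rw [prod_range_succ', add_zero, add_zero, mul_comm]
  congr 1
  refine prod_congr rfl fun i _ => ?_
  have e1 : a + (i + 1) = a + 1 + i := by ring
  have e2 : x + (i + 1) = x + 1 + i := by ring
  rw [e1, e2]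

lemma sv_add (t : ℕ → Ty) (x a n m : ℕ) :
    sv t x a (n + m) = sv t x a n * sv t (x + n) (a + n) m := by
  unfold sv
  rw [prod_range_add]
  congr 1
  refine prod_congr rfl fun i _ => ?_
  rw [add_assoc, add_assoc]

lemma SS_nonneg (t : ℕ → Ty) (x a M : ℕ) : 0 ≤ SS t x a M := sum_nonneg fun _ _ => sv_nonneg _ _ _ _

lemma SS_succ (t : ℕ → Ty) (x a M : ℕ) :
    SS t x a (M + 1) = 1 + rf a (t x) * SS t (x + 1) (a + 1) M := by
  unfold SS
  rw [sum_range_succ', sv_zero, mul_sum, add_comm]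
  congr 1
  exact sum_congr rfl fun n _ => sv_succ t x a n

lemma SS_mono (t : ℕ → Ty) (x a : ℕ) {M M' : ℕ} (h : M ≤ M') : SS t x a M ≤ SS t x a M' := by
  unfold SS
  exact sum_le_sum_of_subset_of_nonneg (range_mono h) (fun _ _ _ => sv_nonneg _ _ _ _)

lemma SS_le_card (t : ℕ → Ty) (x a M : ℕ) : SS t x a M ≤ M := by
  unfold SS
  calc ∑ n ∈ range M, sv t x a n ≤ ∑ _n ∈ range M, (1 : ℝ) :=
        sum_le_sum fun _ _ => sv_le_one _ _ _ _
    _ = M := by simp

lemma SS_split (t : ℕ → Ty) (x a L M : ℕ) :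
    SS t x a M ≤ SS t x a L + sv t x a L * SS t (x + L) (a + L) M := by
  have h1 : SS t x a (L + M) = SS t x a L + sv t x a L * SS t (x + L) (a + L) M := by
    unfold SS
    rw [sum_range_add, mul_sum]
    congr 1
    exact sum_congr rfl fun n _ => sv_add t x a L n
  rw [← h1]
  exact SS_mono t x a (by omega)

/-- Potential bound. -/
lemma SS_le_pot (t : ℕ → Ty) (chi : ℕ → ℝ) (ε : ℝ) (hε : 0 < ε) (h0 : ∀ x, 0 ≤ chi x)
    (h1 : ∀ x, chi (x + 1) + ε - sg (t x) ≤ chi x) (M : ℕ) :
    ∀ x a : ℕ, SS t x a M ≤ ((a : ℝ) + 1 + chi x) / ε := by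
  induction M with
  | zero =>
    intro x a
    have := h0 x
    simp only [SS, range_zero, sum_empty]
    positivity
  | succ M ih =>
    intro x a
    rw [SS_succ]
    have ih' := ih (x + 1) (a + 1)
    have hx := h1 x
    have hc := h0 (x + 1)
    have hS := SS_nonneg t (x + 1) (a + 1) M
    push_cast at ih'
    rw [le_div_iff₀ hε] at ih' ⊢
    have pa : (0 : ℝ) ≤ (a : ℝ) := by positivity
    rcases ht : t x with _ | _ | _
    · rw [ht] at hx
      simp only [sg, rf] at hx ⊢
      have h2 : (a : ℝ) / (a + 2) * (SS t (x + 1) (a + 1) M * ε) ≤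
          (a : ℝ) / (a + 2) * ((a : ℝ) + 1 + 1 + chi (x + 1)) :=
        mul_le_mul_of_nonneg_left ih' (by positivity)
      have h3 : (a : ℝ) / (a + 2) * ((a : ℝ) + 1 + 1 + chi (x + 1)) ≤ a + chi (x + 1) := by
        have h4 : (a : ℝ) / (a + 2) * ((a : ℝ) + 1 + 1) = a := by field_simp; ring
        have h5 : (a : ℝ) / (a + 2) * chi (x + 1) ≤ 1 * chi (x + 1) := by
          refine mul_le_mul_of_nonneg_right ?_ hc
          rw [div_le_one (by positivity)]; linarith
        nlinarith
      nlinarith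
    · rw [ht] at hx
      simp only [sg, rf] at hx ⊢
      linarith
    · rw [ht] at hx
      simp only [sg, rf] at hx ⊢
      linarith

lemma sum_periodic (g : ℕ → ℝ) (N : ℕ) (hg : ∀ i, g (i + N) = g i) (J : ℕ) :
    ∑ i ∈ range (J * N), g i = J * ∑ i ∈ range N, g i := by
  have hg' : ∀ J i, g (i + J * N) = g i := by
    intro J; induction J with
    | zero => intro i; simp
    | succ J ih => intro i; rw [Nat.succ_mul, ← add_assoc, hg, ih]
  induction J with
  | zero => simp
  | succ J ih =>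
    rw [Nat.succ_mul, sum_range_add, ih]
    push_cast
    have : ∑ x ∈ range N, g (J * N + x) = ∑ x ∈ range N, g x := by
      refine sum_congr rfl fun i _ => ?_
      rw [add_comm, hg' J i]
    rw [this]; ring

lemma sum_window (g : ℕ → ℝ) (N : ℕ) (hg : ∀ i, g (i + N) = g i) (x : ℕ) :
    ∑ i ∈ range (x + N), g i = ∑ i ∈ range x, g i + ∑ i ∈ range N, g i := by
  induction x with
  | zero => simp
  | succ x ih =>
    have : x + 1 + N = (x + N) + 1 := by ring
    rw [this, sum_range_succ, ih, sum_range_succ, hg]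
    ring

/-- Bound for periodic patterns. -/
lemma SS_le_per (t : ℕ → Ty) (N : ℕ) (hN : 0 < N) (hper : ∀ x, t (x + N) = t x)
    (hs : 0 < ∑ i ∈ range N, sg (t i)) (M x a : ℕ) :
    SS t x a M ≤ ((a : ℝ) + 1 + 4 * N) / ((∑ i ∈ range N, sg (t i)) / N) := by
  set s := ∑ i ∈ range N, sg (t i) with hsdef
  set ε := s / N with hε
  have hNr : (0 : ℝ) < N := by exact_mod_cast hN
  have hε0 : 0 < ε := div_pos hs hNr
  have hsN : s ≤ N := by
    calc s ≤ ∑ _i ∈ range N, (1 : ℝ) := sum_le_sum fun _ _ => sg_le_one _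
      _ = N := by simp
  have hε1 : ε ≤ 1 := by rw [hε, div_le_one hNr]; exact hsN
  set g : ℕ → ℝ := fun i => sg (t i) - ε with hg
  have hgper : ∀ i, g (i + N) = g i := by intro i; simp only [hg]; rw [hper]
  have hgsum : ∑ i ∈ range N, g i = 0 := by
    simp only [hg]
    rw [sum_sub_distrib, ← hsdef]
    simp only [sum_const, card_range, nsmul_eq_mul]
    rw [hε]; field_simp; ring
  set B : ℕ → ℝ := fun x => ∑ i ∈ range x, g i with hB
  have hBper : ∀ x, B (x + N) = B x := by
    intro x; simp only [hB]; rw [sum_window g N hgper x, hgsum, add_zero]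
  have hBmod : ∀ x, B x = B (x % N) := by
    intro x
    have : ∀ q r, B (r + q * N) = B r := by
      intro q; induction q with
      | zero => intro r; simp
      | succ q ih => intro r; rw [Nat.succ_mul, ← add_assoc, hBper, ih]
    conv_lhs => rw [← Nat.mod_add_div x N, mul_comm]
    exact this _ _
  have hgabs : ∀ i, |g i| ≤ 2 := by
    intro i; simp only [hg]; rw [abs_le]
    constructor <;> linarith [sg_le_one (t i), neg_one_le_sg (t i)]
  have hBabs : ∀ x, |B x| ≤ 2 * N := by
    intro x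
    rw [hBmod]
    calc |B (x % N)| ≤ ∑ i ∈ range (x % N), |g i| := abs_sum_le_sum_abs _ _
      _ ≤ ∑ _i ∈ range (x % N), (2 : ℝ) := sum_le_sum fun i _ => hgabs i
      _ = 2 * ((x % N : ℕ) : ℝ) := by simp; ring
      _ ≤ 2 * N := by
        have : ((x % N : ℕ) : ℝ) ≤ N := by exact_mod_cast (Nat.mod_lt x hN).le
        linarith
  set chi : ℕ → ℝ := fun x => B x + 2 * N with hchi
  have h0 : ∀ x, 0 ≤ chi x := by
    intro x; simp only [hchi]
    have := (abs_le.mp (hBabs x)).1
    linarith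
  have h1 : ∀ x, chi (x + 1) + ε - sg (t x) ≤ chi x := by
    intro x; simp only [hchi, hB, hg]
    rw [sum_range_succ]
    linarith
  refine (SS_le_pot t chi ε hε0 h0 h1 M x a).trans ?_
  refine div_le_div_of_nonneg_right ?_ hε0.le
  simp only [hchi]
  have := (abs_le.mp (hBabs x)).2
  linarith

end Pool.Agent.ERW
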