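import Pool.Agent.Lib.MP_05ceff_pr.Harm

set_option autoImplicit false

namespace Pool.Agent.ERW

open Finset MeasureTheory

/-- One step of the walk with remembered visit counts. -/
noncomputable def stp (e : ℤ → ℕ → ℝ) (q : ℤ × (ℤ → ℕ)) (a : ℝ) : ℤ × (ℤ → ℕ) :=
  (if a < e q.1 (q.2 q.1 + 1) then q.1 + 1 else q.1 - 1, addv q.2 q.1)

/-- The walk driven by a sequence of numbers. -/
noncomputable def run (e : ℤ → ℕ → ℝ) (q : ℤ × (ℤ → ℕ)) (v : ℕ → ℝ) : ℕ → ℤ × (ℤ → ℕ)
  | 0 => q
  | n + 1 => stp e (run e q v n) (v n)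

/-- Put a number in front of a sequence. -/
def cons (a : ℝ) (v : ℕ → ℝ) : ℕ → ℝ
  | 0 => a
  | n + 1 => v n

lemma run_cons (e : ℤ → ℕ → ℝ) (q : ℤ × (ℤ → ℕ)) (a : ℝ) (v : ℕ → ℝ) (n : ℕ) :
    run e q (cons a v) (n + 1) = run e (stp e q a) v n := by
  induction n with
  | zero => rfl
  | succ n ih =>
    show stp e (run e q (cons a v) (n + 1)) (cons a v (n + 1)) = stp e (run e (stp e q a) v n) (v n)
    rw [ih]; rfl

/-- Uniform law on the unit interval. -/
noncomputable def unif : Measure ℝ := volume.restrict (Set.Icc (0 : ℝ) 1)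

instance : IsProbabilityMeasure unif := by
  constructor
  unfold unif
  simp

/-- Product of uniform laws. -/
noncomputable def lam : Measure (ℕ → ℝ) := Measure.infinitePi (fun _ : ℕ => unif)

instance : IsProbabilityMeasure lam := by unfold lam; infer_instance

lemma measurable_cons : Measurable (fun p : ℝ × (ℕ → ℝ) => cons p.1 p.2) := by
  rw [measurable_pi_iff]
  intro n
  cases n with
  | zero => exact measurable_fst
  | succ n => exact (measurable_pi_apply n).comp measurable_snd

lemma cons_map : (unif.prod lam).map (fun p : ℝ × (ℕ → ℝ) => cons p.1 p.2) = lam := by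
  unfold lam
  refine Measure.eq_infinitePi _ ?_
  intro s t ht
  classical
  set T : ℕ → Set ℝ := fun i => if i ∈ s then t i else Set.univ with hT
  have hTm : ∀ i, MeasurableSet (T i) := by
    intro i; simp only [hT]; split_ifs
    · exact ht i
    · exact MeasurableSet.univ
  obtain ⟨N, hN⟩ : ∃ N, s ⊆ range (N + 1) := by
    refine ⟨s.sup id, fun i hi => ?_⟩
    rw [mem_range]
    have : i ≤ s.sup id := le_sup (f := id) hi
    omega
  have h1 : Set.pi (s : Set ℕ) t = Set.pi (range (N + 1) : Set ℕ) T := by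
    ext v
    simp only [Set.mem_pi, mem_coe, hT]
    constructor
    · intro h i _
      split_ifs with hi
      · exact h i hi
      · exact Set.mem_univ _
    · intro h i hi
      have := h i (hN hi)
      rwa [if_pos hi] at this
  have h2 : ∏ i ∈ s, unif (t i) = ∏ i ∈ range (N + 1), unif (T i) := by
    rw [← prod_subset hN]
    · refine prod_congr rfl fun i hi => ?_
      simp only [hT]; rw [if_pos hi]
    · intro i _ hi
      simp only [hT]; rw [if_neg hi]; exact measure_univ
  rw [h1, h2, Measure.map_apply measurable_cons]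
  · have h3 : (fun p : ℝ × (ℕ → ℝ) => cons p.1 p.2) ⁻¹' (Set.pi (range (N + 1) : Set ℕ) T) =
        (T 0) ×ˢ (Set.pi (range N : Set ℕ) (fun i => T (i + 1))) := by
      ext p
      simp only [Set.mem_preimage, Set.mem_pi, mem_coe, mem_range, Set.mem_prod]
      constructor
      · intro h
        exact ⟨h 0 (by omega), fun i hi => h (i + 1) (by omega)⟩
      · rintro ⟨h0, h⟩ i hi
        cases i with
        | zero => exact h0
        | succ i => exact h i (by omega)
    rw [h3, Measure.prod_prod, Measure.infinitePi_pi _ (fun i _ => hTm (i + 1)),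
      prod_range_succ', mul_comm]
  · exact MeasurableSet.pi (Finset.countable_toSet _) (fun i _ => hTm i)

/-- The walk stays on `{1,2,...}` during steps `1..m`. -/
def Good (e : ℤ → ℕ → ℝ) (m : ℕ) (q : ℤ × (ℤ → ℕ)) : Set (ℕ → ℝ) :=
  {v | ∀ i, 1 ≤ i → i ≤ m → 1 ≤ (run e q v i).1}

lemma cons_mem_Good (e : ℤ → ℕ → ℝ) (m : ℕ) (q : ℤ × (ℤ → ℕ)) (a : ℝ) (v : ℕ → ℝ) :
    cons a v ∈ Good e (m + 1) q ↔ 1 ≤ (stp e q a).1 ∧ v ∈ Good e m (stp e q a) := by
  unfold Good
  simp only [Set.mem_setOf_eq]
  constructor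
  · intro h
    refine ⟨h 1 (le_refl _) (by omega), ?_⟩
    intro i h1 h2
    rw [← run_cons e q a v i]
    exact h (i + 1) (by omega) (by omega)
  · rintro ⟨h0, h⟩ i h1 h2
    obtain ⟨j, rfl⟩ : ∃ j, i = j + 1 := ⟨i - 1, by omega⟩
    rw [run_cons]
    rcases Nat.eq_zero_or_pos j with hj | hj
    · subst hj; exact h0
    · exact h j hj (by omega)

lemma measurable_eval3 : Measurable (fun p : (ℤ → ℕ → ℝ) × (ℤ × (ℤ → ℕ)) =>
    p.1 p.2.1 (p.2.2 p.2.1 + 1)) := by
  have h1 : Measurable (fun p : ((ℤ → ℕ → ℝ) × ℤ) × ℕ => p.1.1 p.1.2 (p.2 + 1)) := by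
    refine measurable_from_prod_countable_left (fun n => ?_)
    refine measurable_from_prod_countable_left (fun z => ?_)
    exact (measurable_pi_apply (n + 1)).comp (measurable_pi_apply z)
  have h2 : Measurable (fun p : (ℤ → ℕ) × ℤ => p.1 p.2) := by
    refine measurable_from_prod_countable_left (fun z => ?_)
    exact measurable_pi_apply z
  have h3 : Measurable (fun p : (ℤ → ℕ → ℝ) × (ℤ × (ℤ → ℕ)) =>
      (((p.1, p.2.1), p.2.2 p.2.1) : ((ℤ → ℕ → ℝ) × ℤ) × ℕ)) := by
    refine Measurable.prodMk ?_ ?_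
    · exact measurable_fst.prodMk (measurable_fst.comp measurable_snd)
    · exact h2.comp ((measurable_snd.comp measurable_snd).prodMk
        (measurable_fst.comp measurable_snd))
  exact h1.comp h3

lemma measurable_addv : Measurable (fun q : ℤ × (ℤ → ℕ) => addv q.2 q.1) := by
  have hx : Measurable (fun p : (ℤ → ℕ) × ℤ => addv p.1 p.2) := by
    refine measurable_from_prod_countable_left (fun x => ?_)
    rw [measurable_pi_iff]
    intro y
    by_cases h : y = x
    · subst h
      have : (fun c : ℤ → ℕ => addv c y y) = fun c => c y + 1 := by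
        funext c; exact addv_eq c y
      show Measurable (fun c : ℤ → ℕ => addv c y y)
      rw [this]
      exact (measurable_of_countable (fun n : ℕ => n + 1)).comp (measurable_pi_apply y)
    · have : (fun c : ℤ → ℕ => addv c x y) = fun c => c y := by
        funext c; exact addv_ne c x y h
      show Measurable (fun c : ℤ → ℕ => addv c x y)
      rw [this]
      exact measurable_pi_apply y
  exact hx.comp (measurable_snd.prodMk measurable_fst)

lemma measurable_stp : Measurable (fun p : ((ℤ → ℕ → ℝ) × (ℤ × (ℤ → ℕ))) × ℝ =>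
    stp p.1.1 p.1.2 p.2) := by
  unfold stp
  refine Measurable.prodMk ?_ ?_
  · refine Measurable.ite ?_ ?_ ?_
    · exact measurableSet_lt measurable_snd (measurable_eval3.comp measurable_fst)
    · exact (measurable_of_countable (fun z : ℤ => z + 1)).comp
        (measurable_fst.comp (measurable_snd.comp measurable_fst))
    · exact (measurable_of_countable (fun z : ℤ => z - 1)).comp
        (measurable_fst.comp (measurable_snd.comp measurable_fst))
  · exact measurable_addv.comp (measurable_snd.comp measurable_fst)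

lemma measurable_run (q : ℤ × (ℤ → ℕ)) (n : ℕ) :
    Measurable (fun p : (ℤ → ℕ → ℝ) × (ℕ → ℝ) => run p.1 q p.2 n) := by
  induction n with
  | zero => exact measurable_const
  | succ n ih =>
    exact measurable_stp.comp ((measurable_fst.prodMk ih).prodMk
      ((measurable_pi_apply n).comp measurable_snd))

lemma measurableSet_Good' (m : ℕ) (q : ℤ × (ℤ → ℕ)) :
    MeasurableSet {p : (ℤ → ℕ → ℝ) × (ℕ → ℝ) | p.2 ∈ Good p.1 m q} := by
  have : {p : (ℤ → ℕ → ℝ) × (ℕ → ℝ) | p.2 ∈ Good p.1 m q} =
      ⋂ i : ℕ, ⋂ (_ : 1 ≤ i), ⋂ (_ : i ≤ m), {p | 1 ≤ (run p.1 q p.2 i).1} := by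
    ext p; simp [Good]
  rw [this]
  refine MeasurableSet.iInter fun i => MeasurableSet.iInter fun _ => MeasurableSet.iInter fun _ => ?_
  exact measurableSet_le measurable_const (measurable_fst.comp (measurable_run q i))

lemma measurableSet_Good (e : ℤ → ℕ → ℝ) (m : ℕ) (q : ℤ × (ℤ → ℕ)) :
    MeasurableSet (Good e m q) := by
  have h := measurableSet_Good' m q
  have h2 : Measurable (fun v : ℕ → ℝ => (e, v)) := measurable_const.prodMk measurable_id
  exact h2 h

lemma unif_Iio (p : ℝ) (h0 : 0 ≤ p) (h1 : p ≤ 1) : unif (Set.Iio p) = ENNReal.ofReal p := by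
  unfold unif
  rw [Measure.restrict_apply measurableSet_Iio]
  have : Set.Iio p ∩ Set.Icc 0 1 = Set.Ico 0 p := by
    ext x; simp only [Set.mem_inter_iff, Set.mem_Iio, Set.mem_Icc, Set.mem_Ico]
    constructor
    · rintro ⟨a, b, c⟩; exact ⟨b, a⟩
    · rintro ⟨a, b⟩; exact ⟨b, a, by linarith⟩
  rw [this, Real.volume_Ico, sub_zero]

lemma unif_Ici (p : ℝ) (h0 : 0 ≤ p) (h1 : p ≤ 1) : unif (Set.Ici p) = ENNReal.ofReal (1 - p) := by
  unfold unif
  rw [Measure.restrict_apply measurableSet_Ici]
  have : Set.Ici p ∩ Set.Icc 0 1 = Set.Icc p 1 := by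
    ext x; simp only [Set.mem_inter_iff, Set.mem_Ici, Set.mem_Icc]
    constructor
    · rintro ⟨a, b, c⟩; exact ⟨a, c⟩
    · rintro ⟨a, b⟩; exact ⟨a, by linarith, b⟩
  rw [this, Real.volume_Icc]

/-- The one-step decomposition. -/
lemma lam_Good_succ (e : ℤ → ℕ → ℝ) (he : IsEnv e) (m : ℕ) (x : ℤ) (c : ℤ → ℕ) :
    lam (Good e (m + 1) (x, c)) =
      ENNReal.ofReal (e x (c x + 1)) * (if 1 ≤ x + 1 then lam (Good e m (x + 1, addv c x)) else 0) +
      ENNReal.ofReal (1 - e x (c x + 1)) *
        (if 1 ≤ x - 1 then lam (Good e m (x - 1, addv c x)) else 0) := by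
  set p := e x (c x + 1) with hp
  have hp0 : 0 ≤ p := (he x (c x + 1)).1
  have hp1 : p ≤ 1 := (he x (c x + 1)).2
  set G1 : Set (ℕ → ℝ) := if 1 ≤ x + 1 then Good e m (x + 1, addv c x) else ∅ with hG1
  set G2 : Set (ℕ → ℝ) := if 1 ≤ x - 1 then Good e m (x - 1, addv c x) else ∅ with hG2
  have m1 : MeasurableSet G1 := by
    simp only [hG1]; split_ifs
    · exact measurableSet_Good _ _ _
    · exact MeasurableSet.empty
  have m2 : MeasurableSet G2 := by
    simp only [hG2]; split_ifs
    · exact measurableSet_Good _ _ _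
    · exact MeasurableSet.empty
  have hpre : (fun p : ℝ × (ℕ → ℝ) => cons p.1 p.2) ⁻¹' (Good e (m + 1) (x, c)) =
      (Set.Iio p ×ˢ G1) ∪ (Set.Ici p ×ˢ G2) := by
    ext ⟨a, v⟩
    simp only [Set.mem_preimage, cons_mem_Good, Set.mem_union, Set.mem_prod, Set.mem_Iio,
      Set.mem_Ici, hG1, hG2]
    by_cases ha : a < p
    · have hs : stp e (x, c) a = (x + 1, addv c x) := by
        unfold stp; simp only; rw [if_pos ha]
      rw [hs]
      have : ¬ p ≤ a := not_le.mpr ha
      simp only [ha, this, true_and, false_and, or_false]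
      split_ifs with h
      · simp [h]
      · simp [h]
    · have hs : stp e (x, c) a = (x - 1, addv c x) := by
        unfold stp; simp only; rw [if_neg ha]
      rw [hs]
      have : p ≤ a := not_lt.mp ha
      simp only [ha, this, true_and, false_and, false_or]
      split_ifs with h
      · simp [h]
      · simp [h]
  have hdisj : Disjoint (Set.Iio p ×ˢ G1) (Set.Ici p ×ˢ G2) := by
    rw [Set.disjoint_left]
    rintro ⟨a, v⟩ h1 h2
    simp only [Set.mem_prod, Set.mem_Iio, Set.mem_Ici] at h1 h2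
    linarith [h1.1, h2.1]
  conv_lhs => rw [← cons_map]
  rw [Measure.map_apply measurable_cons (measurableSet_Good _ _ _), hpre,
    measure_union hdisj (measurableSet_Ici.prod m2), Measure.prod_prod, Measure.prod_prod,
    unif_Iio p hp0 hp1, unif_Ici p hp0 hp1]
  congr 1
  · congr 1
    simp only [hG1]; split_ifs <;> simp
  · congr 1
    simp only [hG2]; split_ifs <;> simp

lemma lam_Good_ge (e : ℤ → ℕ → ℝ) (he : IsEnv e) (K : ℕ) (m : ℕ) :
    ∀ (x : ℤ) (c : ℤ → ℕ), 1 ≤ x → x + m ≤ K + 1 →
      ENNReal.ofReal (uf e K x c) ≤ lam (Good e m (x, c)) := by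
  induction m with
  | zero =>
    intro x c hx hm
    have : Good e 0 (x, c) = Set.univ := by
      ext v; simp only [Good, Set.mem_setOf_eq, Set.mem_univ, iff_true]
      intro i h1 h2; omega
    rw [this, measure_univ]
    exact ENNReal.ofReal_le_one.mpr (uf_le_one e he K x c)
  | succ m ih =>
    intro x c hx hm
    push_cast at hm
    have hxK : x ≤ K := by omega
    rw [lam_Good_succ e he, uf_harm e he K x c hx hxK]
    set p := e x (c x + 1) with hp
    have hp0 : 0 ≤ p := (he x (c x + 1)).1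
    have hp1 : p ≤ 1 := (he x (c x + 1)).2
    have h1 := ih (x + 1) (addv c x) (by omega) (by omega)
    have hn1 := uf_nonneg e he K (x + 1) (addv c x)
    have hn2 := uf_nonneg e he K (x - 1) (addv c x)
    rw [ENNReal.ofReal_add (mul_nonneg hp0 hn1) (mul_nonneg (by linarith) hn2),
      ENNReal.ofReal_mul hp0, ENNReal.ofReal_mul (by linarith : (0 : ℝ) ≤ 1 - p)]
    refine add_le_add ?_ ?_
    · rw [if_pos (by omega)]
      gcongr
    · by_cases h : 1 ≤ x - 1
      · rw [if_pos h]
        have h2 := ih (x - 1) (addv c x) h (by omega)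
        gcongr
      · rw [if_neg h]
        have : uf e K (x - 1) (addv c x) = 0 := by
          unfold uf; rw [if_pos (by omega)]
        rw [this]; simp

/-- Lower bound for the probability that the walk started from `0` in a fresh environment stays
positive during steps `1..m`. -/
lemma lam_Good_zero (e : ℤ → ℕ → ℝ) (he : IsEnv e) (τ : ℕ → Ty)
    (hτ : ∀ z : ℕ, ∀ i : ℕ, e ((z : ℤ) + 1) (i + 1) = stk (τ z) i) (m : ℕ)
    (h01 : 1 / 2 ≤ e 0 1) :
    ENNReal.ofReal (1 / 2 * (1 - ∑ z ∈ range (m + 1), exc τ z)) ≤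
      lam (Good e (m + 1) (0, fun _ => 0)) := by
  have h1 := lam_Good_succ e he m 0 (fun _ => 0)
  set c' : ℤ → ℕ := addv (fun _ => 0) 0 with hc'
  have h2 := lam_Good_ge e he (m + 1) m 1 c' (le_refl _) (by push_cast; linarith)
  have h3 : uf e (m + 1) 1 c' = H τ (m + 1) 0 := by
    unfold uf
    rw [if_neg (by norm_num), hf_fresh e τ c' (m + 1) ?_ hτ]
    intro z
    rw [hc', addv_ne]
    intro h; omega
  have h4 := H_lower τ (m + 1)
  rw [h3] at h2
  rw [h1]
  simp only [zero_add, le_refl, if_true]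
  have h5 : ENNReal.ofReal (1 / 2 * (1 - ∑ z ∈ range (m + 1), exc τ z)) ≤
      ENNReal.ofReal (e 0 1) * ENNReal.ofReal (H τ (m + 1) 0) := by
    rw [← ENNReal.ofReal_mul (he 0 1).1]
    refine ENNReal.ofReal_le_ofReal ?_
    have hH := (H_unit τ (m + 1) 0).1
    nlinarith [(he 0 1).2]
  refine h5.trans (le_trans ?_ le_self_add)
  gcongr

end Pool.Agent.ERW
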